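import Mathlib

/-!
A linear order whose finite intervals have at most `N` elements is finite or contains a copy of
the rational numbers.
-/

set_option autoImplicit false

namespace Pool.Agent.Work.MP_25be31_al

universe u

section

variable {α : Type u} [LinearOrder α]

/-- the elements at finite distance of `a` -/
def cls (a : α) : Set α := {b | (Set.uIcc a b).Finite}

theorem mem_cls_self (a : α) : a ∈ cls a := by
  change (Set.uIcc a a).Finite
  rw [Set.uIcc_self]
  exact Set.finite_singleton a

theorem cls_symm {a b : α} (h : b ∈ cls a) : a ∈ cls b := by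
  change (Set.uIcc b a).Finite
  rw [Set.uIcc_comm]
  exact h

theorem cls_trans {a b c : α} (h : b ∈ cls a) (h' : c ∈ cls b) : c ∈ cls a :=
  (Set.Finite.union h h').subset Set.uIcc_subset_uIcc_union_uIcc

theorem cls_finite {N : ℕ}
    (h : ∀ s : Finset α, (∃ a b, ∀ x, x ∈ s ↔ a ≤ x ∧ x ≤ b) → s.card ≤ N) (a : α) :
    (cls a).Finite := by
  classical
  by_contra hinf
  obtain ⟨s, hs, hcard⟩ := Set.Infinite.exists_subset_card_eq (s := cls a) hinf (N + 1)
  have hne : s.Nonempty := by
    rw [← Finset.card_pos, hcard]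
    omega
  have h1 : s.min' hne ∈ cls a := hs (s.min'_mem hne)
  have h2 : s.max' hne ∈ cls a := hs (s.max'_mem hne)
  have h3 : (Set.uIcc (s.min' hne) (s.max' hne)).Finite := cls_trans (cls_symm h1) h2
  have h4 := h h3.toFinset ⟨s.min' hne, s.max' hne, fun x => by
    rw [Set.Finite.mem_toFinset, Set.uIcc_of_le (s.min'_le _ (s.max'_mem hne)), Set.mem_Icc]⟩
  have h5 : s ⊆ h3.toFinset := by
    intro x hx
    rw [Set.Finite.mem_toFinset, Set.uIcc_of_le (s.min'_le _ (s.max'_mem hne)), Set.mem_Icc]
    exact ⟨s.min'_le _ hx, s.le_max' _ hx⟩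
  have h6 := Finset.card_le_card h5
  omega

theorem dich_order {N : ℕ}
    (h : ∀ s : Finset α, (∃ a b, ∀ x, x ∈ s ↔ a ≤ x ∧ x ≤ b) → s.card ≤ N) :
    (Finite α ∧ Nat.card α ≤ N) ∨ Nonempty (ℚ ↪o α) := by
  classical
  rcases finite_or_infinite α with hfin | hinf
  · refine Or.inl ⟨hfin, ?_⟩
    have _ := Fintype.ofFinite α
    rw [Nat.card_eq_fintype_card]
    rcases isEmpty_or_nonempty α with he | hne
    · rw [Fintype.card_eq_zero]
      exact Nat.zero_le N
    · have hne' : (Finset.univ : Finset α).Nonempty := Finset.univ_nonempty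
      refine h Finset.univ ⟨Finset.univ.min' hne', Finset.univ.max' hne', fun x => ?_⟩
      exact ⟨fun hx => ⟨Finset.min'_le _ _ hx, Finset.le_max' _ _ hx⟩, fun _ => Finset.mem_univ x⟩
  · right
    have hcl := cls_finite h
    -- largest element of a class
    have hmax : ∀ a : α, ∃ m ∈ cls a, ∀ b ∈ cls a, b ≤ m := fun a =>
      Set.exists_max_image (cls a) id (hcl a) ⟨a, mem_cls_self a⟩
    choose mx hmx hmx' using hmax
    let M : Set α := {m | ∀ b ∈ cls m, b ≤ m}
    have hM : ∀ a, mx a ∈ M := fun a b hb => hmx' a b (cls_trans (hmx a) hb)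
    have hnt : Nontrivial M := by
      by_contra hcon
      rw [not_nontrivial_iff_subsingleton] at hcon
      obtain ⟨a⟩ : Nonempty α := inferInstance
      have h1 : (Set.univ : Set α) ⊆ cls (mx a) := by
        intro b _
        have h2 : (⟨mx b, hM b⟩ : M) = ⟨mx a, hM a⟩ := Subsingleton.elim _ _
        have h3 : mx b = mx a := congrArg Subtype.val h2
        rw [← h3]
        exact cls_symm (hmx b)
      exact Set.infinite_univ ((hcl (mx a)).subset h1)
    have hden : DenselyOrdered M := by
      constructor
      rintro ⟨a, ha⟩ ⟨b, hb⟩ hab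
      have hab' : a < b := hab
      have h1 : (Set.Icc a b).Infinite := by
        intro hf
        have h2 : b ∈ cls a := by
          change (Set.uIcc a b).Finite
          rw [Set.uIcc_of_le hab'.le]
          exact hf
        exact absurd (ha b h2) (not_le.2 hab')
      obtain ⟨x, hx, hx'⟩ := (h1.sdiff ((hcl b).union (Set.finite_singleton a))).nonempty
      have hxb : x ∉ cls b := fun hc => hx' (Or.inl hc)
      have hxa : x ≠ a := fun hc => hx' (Or.inr hc)
      have hax : a < x := lt_of_le_of_ne hx.1 (Ne.symm hxa)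
      refine ⟨⟨mx x, hM x⟩, ?_, ?_⟩
      · change a < mx x
        exact lt_of_lt_of_le hax (hmx' x x (mem_cls_self x))
      · change mx x < b
        by_contra hcon
        rw [not_lt] at hcon
        apply hxb
        apply cls_symm
        change (Set.uIcc x b).Finite
        rw [Set.uIcc_of_le hx.2]
        have h2 : (Set.uIcc x (mx x)).Finite := hmx x
        rw [Set.uIcc_of_le (hmx' x x (mem_cls_self x))] at h2
        exact h2.subset (Set.Icc_subset_Icc_right hcon)
    obtain ⟨f⟩ := Order.embedding_from_countable_to_dense ℚ M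
    exact ⟨f.trans (OrderEmbedding.subtype M)⟩

end

end Pool.Agent.Work.MP_25be31_al
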