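import Pool.Agent.Work.MP_25be31_al.Main
import Pool.Agent.Work.MP_25be31_al.Ord

/-!
The chain of convex subgroups of an ordered group of finite special rank: every interval is finite
of bounded size or contains a copy of the rational numbers (and then has at least continuum many
members).
-/

set_option autoImplicit false
set_option linter.unusedSectionVars false

namespace Pool.Agent.Work.MP_25be31_al

universe u

open scoped Cardinal

section

variable {G : Type u} [Group G] [LinearOrder G] [MulLeftMono G] [MulRightMono G]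

theorem cvx_map_sub {K : Subgroup G} (hK : Cvx K) {E : Subgroup K} (hE : Cvx E) :
    Cvx (E.map K.subtype) := by
  rintro _ _ g ⟨a, ha, rfl⟩ ⟨b, hb, rfl⟩ hag hgb
  have hg : g ∈ K := hK _ _ g a.2 b.2 hag hgb
  exact ⟨⟨g, hg⟩, hE a b ⟨g, hg⟩ ha hb hag hgb, rfl⟩

theorem cvx_comap_sub {K F : Subgroup G} (hF : Cvx F) : Cvx (F.subgroupOf K) := by
  intro a b g ha hb hag hgb
  rw [Subgroup.mem_subgroupOf] at *
  exact hF a b g ha hb hag hgb

/-- a chain of consecutive convex jumps, anywhere, has bounded length -/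
theorem chain_bound {r : ℕ} (hr : SpecialRankLE G r) {n : ℕ} {D : ℕ → Subgroup G}
    (h : ∀ i, i < n → Jump (D (i + 1)) (D i)) : n ≤ r ^ 3 + 2 * r := by
  rcases Nat.eq_zero_or_pos n with rfl | hn
  · exact Nat.zero_le _
  have hmono : ∀ i, i ≤ n → D i ≤ D 0 := by
    intro i
    induction i with
    | zero => intro _; exact le_rfl
    | succ i ih => intro hi; exact (h i hi).le.trans (ih (by omega))
  have i1 : MulLeftMono (D 0) := sub_left _
  have i2 : MulRightMono (D 0) := sub_right _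
  have hK : Cvx (D 0) := (h 0 hn).cD
  have hj : ∀ i, i < n → Jump ((D (i + 1)).subgroupOf (D 0)) ((D i).subgroupOf (D 0)) := by
    intro i hi
    refine ⟨cvx_comap_sub (h i hi).cC, cvx_comap_sub (h i hi).cD, ?_, ?_, ?_⟩
    · intro x hx
      rw [Subgroup.mem_subgroupOf] at *
      exact (h i hi).le hx
    · intro he
      apply (h i hi).ne
      refine le_antisymm (h i hi).le ?_
      intro x hx
      have hx0 : x ∈ D 0 := hmono i hi.le hx
      have h1 : (⟨x, hx0⟩ : D 0) ∈ (D i).subgroupOf (D 0) := hx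
      rw [← he] at h1
      exact h1
    · intro E hE hle hne
      have h1 : E.map (D 0).subtype ≤ D i := by
        rintro _ ⟨x, hx, rfl⟩
        exact hle hx
      have h2 : E.map (D 0).subtype ≠ D i := by
        intro he
        apply hne
        refine le_antisymm hle ?_
        intro x hx
        have h3 : (x : G) ∈ D i := hx
        rw [← he] at h3
        obtain ⟨y, hy, hyx⟩ := h3
        have h4 : y = x := Subtype.ext hyx
        rw [← h4]
        exact hy
      have h3 := (h i hi).max _ (cvx_map_sub hK hE) h1 h2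
      intro x hx
      exact h3 ⟨x, hx, rfl⟩
  have hnor : ∀ i, i ≤ n → ((D i).subgroupOf (D 0)).Normal := by
    intro i
    induction i with
    | zero =>
      intro _
      rw [Subgroup.subgroupOf_self]
      infer_instance
    | succ i ih => intro hi; exact (hj i hi).normal (ih (by omega))
  exact JChain.le_bound (G := D 0) (D := fun i => (D i).subgroupOf (D 0))
    ⟨Subgroup.subgroupOf_self _, hj, hnor⟩ (hr.sub (D 0))

/-- the convex subgroups between `A` and `B` -/
abbrev CI (A B : Subgroup G) : Type u := {C : Subgroup G // Cvx C ∧ A ≤ C ∧ C ≤ B}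

/-- the chain of convex subgroups -/
@[instance_reducible] noncomputable def ciOrd (A B : Subgroup G) : LinearOrder (CI A B) :=
  { (inferInstance : PartialOrder (CI A B)) with
    le_total := fun a b => cvx_total a.2.1 b.2.1
    toDecidableLE := Classical.decRel _ }

theorem interval_card {r : ℕ} (hr : SpecialRankLE G r) (A B : Subgroup G) :
    letI := ciOrd A B
    ∀ s : Finset (CI A B), (∃ a b, ∀ x, x ∈ s ↔ a ≤ x ∧ x ≤ b) → s.card ≤ r ^ 3 + 2 * r + 1 := by
  classical
  let _ := ciOrd A B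
  intro s hs
  obtain ⟨a, b, hab⟩ := hs
  rcases Nat.eq_zero_or_pos s.card with h0 | hpos
  · omega
  set m := s.card with hm
  let e : Fin m ↪o CI A B := s.orderEmbOfFin hm.symm
  have he : ∀ j, a ≤ e j ∧ e j ≤ b := fun j => (hab _).1 (s.orderEmbOfFin_mem hm.symm j)
  have hsur : ∀ x : CI A B, a ≤ x → x ≤ b → ∃ j, e j = x := by
    intro x h1 h2
    have h3 : x ∈ s := (hab x).2 ⟨h1, h2⟩
    have h4 : x ∈ Set.range (s.orderEmbOfFin hm.symm) := by
      rw [Finset.range_orderEmbOfFin]
      exact h3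
    exact h4
  let D : ℕ → Subgroup G := fun i => (e ⟨m - 1 - i, by omega⟩).1
  have hj : ∀ i, i < m - 1 → Jump (D (i + 1)) (D i) := by
    intro i hi
    have hlt : (⟨m - 1 - (i + 1), by omega⟩ : Fin m) < ⟨m - 1 - i, by omega⟩ := by
      rw [Fin.lt_def]
      show m - 1 - (i + 1) < m - 1 - i
      omega
    have hlt' := e.strictMono hlt
    refine ⟨(e _).2.1, (e _).2.1, hlt'.le, fun h => hlt'.ne (Subtype.ext h), ?_⟩
    intro E hE hle hne
    by_contra hcon
    have h1 : D (i + 1) ≤ E := by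
      rcases cvx_total hE (e ⟨m - 1 - (i + 1), by omega⟩).2.1 with h | h
      · exact absurd h hcon
      · exact h
    have hA : A ≤ E := (e ⟨m - 1 - (i + 1), by omega⟩).2.2.1.trans h1
    have hB : E ≤ B := hle.trans (e ⟨m - 1 - i, by omega⟩).2.2.2
    have h2 : a ≤ (⟨E, hE, hA, hB⟩ : CI A B) := (he _).1.trans h1
    have h3 : (⟨E, hE, hA, hB⟩ : CI A B) ≤ b :=
      le_trans (show (⟨E, hE, hA, hB⟩ : CI A B) ≤ e ⟨m - 1 - i, by omega⟩ from hle) (he _).2
    obtain ⟨j, hj⟩ := hsur _ h2 h3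
    have h4 : e j < e ⟨m - 1 - i, by omega⟩ := by
      rw [hj]
      exact lt_of_le_of_ne hle (fun h => hne (congrArg Subtype.val h))
    have h5 : j < ⟨m - 1 - i, by omega⟩ := e.lt_iff_lt.1 h4
    have h6 : j ≤ ⟨m - 1 - (i + 1), by omega⟩ := by
      rw [Fin.lt_def] at h5
      rw [Fin.le_def]
      show j.1 ≤ m - 1 - (i + 1)
      have h5' : j.1 < m - 1 - i := h5
      omega
    have h7 : e j ≤ e ⟨m - 1 - (i + 1), by omega⟩ := e.le_iff_le.2 h6
    rw [hj] at h7
    exact hcon h7
  have := chain_bound hr hj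
  omega

/-- every interval of the chain of convex subgroups is small or contains the rationals -/
theorem dich_interval {r : ℕ} (hr : SpecialRankLE G r) (A B : Subgroup G) :
    ({C : Subgroup G | Cvx C ∧ A ≤ C ∧ C ≤ B}.Finite ∧
      {C : Subgroup G | Cvx C ∧ A ≤ C ∧ C ≤ B}.ncard ≤ r ^ 3 + 2 * r + 1) ∨
    ∃ f : ℚ → Subgroup G, StrictMono f ∧ ∀ q, Cvx (f q) ∧ A ≤ f q ∧ f q ≤ B := by
  let _ := ciOrd A B
  rcases dich_order (interval_card hr A B) with ⟨h1, h2⟩ | ⟨⟨f⟩⟩
  · exact Or.inl ⟨Set.finite_coe_iff.1 h1, h2⟩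
  · refine Or.inr ⟨fun q => (f q).1, ?_, fun q => (f q).2⟩
    intro p q hpq
    have h1 : f p < f q := f.strictMono hpq
    exact lt_of_le_of_ne h1.le (fun h => h1.ne (Subtype.ext h))

theorem cvx_sSup {S : Set (Subgroup G)} (hne : S.Nonempty) (hS : ∀ E ∈ S, Cvx E) :
    Cvx (sSup S) := by
  have hdir : DirectedOn (· ≤ ·) S := by
    intro E hE F hF
    rcases cvx_total (hS E hE) (hS F hF) with h | h
    · exact ⟨F, hF, h, le_rfl⟩
    · exact ⟨E, hE, le_rfl, h⟩
  intro a b g ha hb hag hgb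
  rw [Subgroup.mem_sSup_of_directedOn hne hdir] at *
  obtain ⟨E, hE, haE⟩ := ha
  obtain ⟨F, hF, hbF⟩ := hb
  obtain ⟨K, hK, hEK, hFK⟩ := hdir E hE F hF
  exact ⟨K, hK, hS K hK a b g (hEK haE) (hFK hbF) hag hgb⟩

/-- a copy of the rational numbers gives a copy of the real line -/
theorem real_of_rat {A B : Subgroup G} (f : ℚ → Subgroup G) (hf : StrictMono f)
    (h : ∀ q, Cvx (f q) ∧ A ≤ f q ∧ f q ≤ B) :
    ∃ F : ℝ → Subgroup G, StrictMono F ∧ ∀ x, Cvx (F x) ∧ A ≤ F x ∧ F x ≤ B := by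
  have hne : ∀ x : ℝ, {E | ∃ q : ℚ, (q : ℝ) < x ∧ f q = E}.Nonempty := by
    intro x
    obtain ⟨q, hq⟩ := exists_rat_lt x
    exact ⟨f q, q, hq, rfl⟩
  refine ⟨fun x => sSup {E | ∃ q : ℚ, (q : ℝ) < x ∧ f q = E}, ?_, fun x => ⟨?_, ?_, ?_⟩⟩
  · intro x y hxy
    obtain ⟨q, hxq, hqy⟩ := exists_rat_btwn hxy
    obtain ⟨q', hqq', hqy'⟩ := exists_rat_btwn hqy
    have h1 : sSup {E | ∃ q : ℚ, (q : ℝ) < x ∧ f q = E} ≤ f q := by
      apply sSup_le
      rintro E ⟨p, hp, rfl⟩
      have h2 : p < q := by exact_mod_cast hp.trans hxq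
      exact hf.monotone h2.le
    have h2 : f q' ≤ sSup {E | ∃ q : ℚ, (q : ℝ) < y ∧ f q = E} := le_sSup ⟨q', hqy', rfl⟩
    have h3 : q < q' := by exact_mod_cast hqq'
    exact lt_of_le_of_lt h1 (lt_of_lt_of_le (hf h3) h2)
  · refine cvx_sSup (hne x) ?_
    rintro E ⟨q, _, rfl⟩
    exact (h q).1
  · obtain ⟨q, hq⟩ := exists_rat_lt x
    exact (h q).2.1.trans (le_sSup ⟨q, hq, rfl⟩)
  · apply sSup_le
    rintro E ⟨q, _, rfl⟩
    exact (h q).2.2

/-- every interval of the chain of convex subgroups is small or contains the real line -/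
theorem dich_real {r : ℕ} (hr : SpecialRankLE G r) (A B : Subgroup G) :
    ({C : Subgroup G | Cvx C ∧ A ≤ C ∧ C ≤ B}.Finite ∧
      {C : Subgroup G | Cvx C ∧ A ≤ C ∧ C ≤ B}.ncard ≤ r ^ 3 + 2 * r + 1) ∨
    ∃ F : ℝ → Subgroup G, StrictMono F ∧ ∀ x, Cvx (F x) ∧ A ≤ F x ∧ F x ≤ B := by
  rcases dich_interval hr A B with h | ⟨f, hf, hf'⟩
  · exact Or.inl h
  · exact Or.inr (real_of_rat f hf hf')

theorem cont_of_real {P : Subgroup G → Prop} (F : ℝ → Subgroup G) (hF : StrictMono F)
    (h : ∀ x, P (F x)) : 𝔠 ≤ #{C : Subgroup G // P C} := by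
  have hinj : Function.Injective (fun x => (⟨F x, h x⟩ : {C : Subgroup G // P C})) := by
    intro x y hxy
    exact hF.injective (congrArg Subtype.val hxy)
  have h1 := Cardinal.lift_mk_le_lift_mk_of_injective hinj
  rw [Cardinal.mk_real, Cardinal.lift_continuum, Cardinal.lift_uzero] at h1
  exact h1

/-- a convex subgroup with fewer than continuum many convex subgroups is soluble and it is the
isolator of a finitely generated subgroup -/
theorem small_convex {r : ℕ} (hr : SpecialRankLE G r) {C : Subgroup G} (hC : Cvx C)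
    (h : #{E : Subgroup G // Cvx E ∧ E ≤ C} < 𝔠) :
    Group.IsSolvable C ∧ ∃ H : Subgroup G, H.FG ∧ C = isolator H := by
  have i1 : MulLeftMono C := sub_left _
  have i2 : MulRightMono C := sub_right _
  have hfin : {E : Subgroup G | Cvx E ∧ ⊥ ≤ E ∧ E ≤ C}.Finite := by
    rcases dich_real hr ⊥ C with h1 | ⟨F, hF, hF'⟩
    · exact h1.1
    · exact absurd h (not_lt.2 (cont_of_real (P := fun E => Cvx E ∧ E ≤ C) F hF
        (fun x => ⟨(hF' x).1, (hF' x).2.2⟩)))
  have hfinC : {E : Subgroup C | Cvx E}.Finite := by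
    refine Set.Finite.of_finite_image (f := fun E : Subgroup C => E.map C.subtype)
      (hfin.subset ?_) ?_
    · rintro _ ⟨E, hE, rfl⟩
      refine ⟨cvx_map_sub hC hE, bot_le, ?_⟩
      rintro _ ⟨x, _, rfl⟩
      exact x.2
    · exact (Subgroup.map_injective C.subtype_injective).injOn
  have hT := tfae_one (hr.sub C)
  refine ⟨(hT.out 5 2).1 hfinC, ?_⟩
  have h50 : ∀ E : Subgroup C, Cvx E → ∃ H : Subgroup C, H.FG ∧ E = isolator H :=
    (hT.out 5 0).1 hfinC
  obtain ⟨H, hH, hHC⟩ := h50 ⊤ cvx_top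
  have hHfg : (H.map C.subtype).FG := by
    obtain ⟨S, hS⟩ := hH
    exact ⟨S.image C.subtype, by rw [Finset.coe_image, ← MonoidHom.map_closure, hS]⟩
  refine ⟨H.map C.subtype, hHfg, le_antisymm ?_ ?_⟩
  · intro x hx
    have h1 : (⊤ : Subgroup C) ≤ (isolator (H.map C.subtype)).subgroupOf C := by
      rw [hHC]
      refine MP_25be31_al.isolator_le ?_ ?_
      · intro y hy
        exact le_isolator _ ⟨y, hy, rfl⟩
      · intro g n hn hg
        exact mem_isolator_of_pow hn hg
    exact h1 (Subgroup.mem_top (⟨x, hx⟩ : C))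
  · apply hC.isolator_le
    rintro _ ⟨y, _, rfl⟩
    exact y.2

/-- fewer than continuum many convex subgroups: the group is soluble -/
theorem solvable_of_small {r : ℕ} (hr : SpecialRankLE G r)
    (h : #{C : Subgroup G // Cvx C} < 𝔠) : Group.IsSolvable G := by
  have h1 : #{E : Subgroup G // Cvx E ∧ E ≤ ⊤} ≤ #{C : Subgroup G // Cvx C} :=
    Cardinal.mk_le_of_injective (f := fun E => (⟨E.1, E.2.1⟩ : {C : Subgroup G // Cvx C}))
      (fun a b hab => by have h9 := congrArg Subtype.val hab; exact Subtype.ext h9)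
  have h2 := (small_convex hr cvx_top (lt_of_le_of_lt h1 h)).1
  exact Group.isSolvable_of_surjective (f := (⊤ : Subgroup G).subtype) (fun x => ⟨⟨x, Subgroup.mem_top x⟩, rfl⟩)

/-- the order does not matter -/
theorem all_orders {r : ℕ} (hr : SpecialRankLE G r) (hs : Group.IsSolvable G) :
    (∀ C : Subgroup G, Cvx C → ∃ H : Subgroup G, H.FG ∧ C = isolator H) ∧
      {C : Subgroup G | Cvx C}.Finite ∧ {C : Subgroup G | Cvx C}.ncard ≤ r ^ 3 + 2 * r + 1 :=
  ⟨((tfae_one hr).out 2 0).1 hs, ((tfae_one hr).out 2 6).1 hs⟩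

end

/-- Q1 is equivalent to the absence of ordered groups of finite special rank with continuum many
convex subgroups -/
theorem q1_iff_small : Q1.{u} ↔
    ∀ (G : Type u) [Group G] [LinearOrder G] [MulLeftMono G] [MulRightMono G] (r : ℕ),
      SpecialRankLE G r → #{C : Subgroup G // Cvx C} < 𝔠 := by
  constructor
  · intro h G _ _ _ _ r hr
    have h1 : {C : Subgroup G | Cvx C}.Finite := ((tfae_one hr).out 0 5).1 (h G r hr)
    have h2 : Finite {C : Subgroup G // Cvx C} := h1.to_subtype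
    exact (Cardinal.lt_aleph0_of_finite _).trans Cardinal.aleph0_lt_continuum
  · intro h G _ _ _ _ r hr
    exact (all_orders hr (solvable_of_small hr (h G r hr))).1

end Pool.Agent.Work.MP_25be31_al
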