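import Pool.Agent.Work.MP_25be31_al.Chain

namespace Pool.Agent.Work.MP_25be31_al

universe u v

variable {G : Type u} [Group G] {n : ℕ}

/-- the scalar by which conjugation acts on a factor -/
noncomputable def PosChain.sc (P : PosChain G n) (i : ℕ) (g : G) : ℝ :=
  if h : i < n then Classical.choose (P.conj i h g) else 1

theorem PosChain.sc_spec (P : PosChain G n) {i : ℕ} (hi : i < n) (g : G) :
    0 < P.sc i g ∧ ∀ x ∈ P.D i, g * x * g⁻¹ ∈ P.D i ∧
      P.rho i (g * x * g⁻¹) = P.sc i g * P.rho i x := by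
  unfold PosChain.sc
  rw [dif_pos hi]
  exact Classical.choose_spec (P.conj i hi g)

theorem PosChain.conj_mem (P : PosChain G n) {i : ℕ} (hi : i ≤ n) (g : G) {x : G}
    (hx : x ∈ P.D i) : g * x * g⁻¹ ∈ P.D i := by
  rcases hi.lt_or_eq with h | h
  · exact ((P.sc_spec h g).2 x hx).1
  · subst h
    rw [P.Dn, Subgroup.mem_bot] at hx ⊢
    rw [hx]; group

theorem PosChain.exists_wit (P : PosChain G n) {i : ℕ} (hi : i < n) :
    ∃ x ∈ P.D i, P.rho i x ≠ 0 := by
  obtain ⟨x, hx, hx'⟩ := P.strict i hi
  exact ⟨x, hx, fun h => hx' ((P.ker i hi x hx).1 h)⟩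

theorem PosChain.sc_mul (P : PosChain G n) {i : ℕ} (hi : i < n) (g h : G) :
    P.sc i (g * h) = P.sc i g * P.sc i h := by
  obtain ⟨x, hx, hx0⟩ := P.exists_wit hi
  have h1 := ((P.sc_spec hi h).2 x hx)
  have h2 := ((P.sc_spec hi g).2 _ h1.1)
  have h3 := ((P.sc_spec hi (g * h)).2 x hx).2
  have h4 : g * h * x * (g * h)⁻¹ = g * (h * x * h⁻¹) * g⁻¹ := by group
  rw [h4, h2.2, h1.2] at h3
  have h5 : (P.sc i g * P.sc i h) * P.rho i x = P.sc i (g * h) * P.rho i x := by
    rw [← h3]; ring
  exact (mul_right_cancel₀ hx0 h5).symm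

theorem PosChain.sc_one (P : PosChain G n) {i : ℕ} (hi : i < n) : P.sc i 1 = 1 := by
  have h := P.sc_mul hi 1 1
  rw [one_mul] at h
  have h0 := (P.sc_spec hi 1).1
  have : P.sc i 1 * P.sc i 1 = P.sc i 1 * 1 := by rw [mul_one]; exact h.symm
  exact mul_left_cancel₀ h0.ne' this

theorem PosChain.sc_inv (P : PosChain G n) {i : ℕ} (hi : i < n) {g : G} (h : P.sc i g = 1) :
    P.sc i g⁻¹ = 1 := by
  have h1 := P.sc_mul hi g g⁻¹
  rw [mul_inv_cancel, P.sc_one hi, h, one_mul] at h1
  exact h1.symm

/-- elements acting trivially on all factors -/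
noncomputable def PosChain.N (P : PosChain G n) : Subgroup G where
  carrier := {g | ∀ i, i < n → P.sc i g = 1}
  mul_mem' := by
    intro a b ha hb i hi
    rw [P.sc_mul hi, ha i hi, hb i hi, mul_one]
  one_mem' := fun i hi => P.sc_one hi
  inv_mem' := fun {g} hg i hi => P.sc_inv hi (hg i hi)

theorem PosChain.homOn_N (P : PosChain G n) :
    HomOn ⊤ P.N (Fin n → ℝ) (fun g i => Real.log (P.sc i.1 g)) := by
  constructor
  · intro x _ y _
    funext i
    simp only [Pi.add_apply]
    rw [P.sc_mul i.2, Real.log_mul (P.sc_spec i.2 x).1.ne' (P.sc_spec i.2 y).1.ne']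
  · intro x _
    constructor
    · intro h i hi
      have h1 := congrFun h ⟨i, hi⟩
      simp only [Pi.zero_apply] at h1
      exact Real.eq_one_of_pos_of_log_eq_zero (P.sc_spec hi x).1 h1
    · intro h
      funext i
      simp only [Pi.zero_apply]
      rw [h i.1 i.2, Real.log_one]

theorem PosChain.comm_mem (P : PosChain G n) {i : ℕ} (hi : i < n) {g x : G} (hg : g ∈ P.N)
    (hx : x ∈ P.D i) : g * x * g⁻¹ * x⁻¹ ∈ P.D (i + 1) := by
  have h1 := (P.sc_spec hi g).2 x hx
  have hP := P.homOn hi
  have hinv := (P.D i).inv_mem hx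
  rw [← P.ker i hi _ ((P.D i).mul_mem h1.1 hinv), P.add i hi _ h1.1 _ hinv, h1.2, hg i hi,
    hP.inv hx]
  ring

/-- unique roots -/
theorem PosChain.root_aux (P : PosChain G n) {i : ℕ} (hi : i < n) (a : G) {d : G}
    (hd : d ∈ P.D i) (k : ℕ) : ∃ e ∈ P.D i, (a * d) ^ (k + 1) = a ^ (k + 1) * e ∧
      ∃ s : ℝ, 0 < s ∧ P.rho i e = s * P.rho i d := by
  induction k with
  | zero => exact ⟨d, hd, by simp, 1, one_pos, by simp⟩
  | succ k ih =>
    obtain ⟨e, he, h1, s, hs, h2⟩ := ih
    have h3 := (P.sc_spec hi a⁻¹).2 e he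
    rw [inv_inv] at h3
    refine ⟨a⁻¹ * e * a * d, (P.D i).mul_mem h3.1 hd, ?_, P.sc i a⁻¹ * s + 1, ?_, ?_⟩
    · rw [pow_succ, h1, pow_succ a (k + 1)]
      group
    · have := mul_pos (P.sc_spec hi a⁻¹).1 hs
      linarith
    · rw [P.add i hi _ h3.1 _ hd, h3.2, h2]
      ring

theorem PosChain.exists_level (P : PosChain G n) {d : G} (hd : d ≠ 1) :
    ∃ i, i < n ∧ d ∈ P.D i ∧ d ∉ P.D (i + 1) := by
  by_contra hcon
  push Not at hcon
  have h : ∀ i, i ≤ n → d ∈ P.D i := by
    intro i
    induction i with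
    | zero => intro _; rw [P.D0]; exact Subgroup.mem_top _
    | succ i ih => intro hi; exact hcon i (by omega) (ih (by omega))
  have := h n le_rfl
  rw [P.Dn, Subgroup.mem_bot] at this
  exact hd this

theorem PosChain.root (P : PosChain G n) {a b : G} {m : ℕ} (hm : 0 < m) (h : a ^ m = b ^ m) :
    a = b := by
  by_contra hne
  have hd : a⁻¹ * b ≠ 1 := fun h0 => hne (inv_mul_eq_one.mp h0)
  obtain ⟨i, hi, h1, h2⟩ := P.exists_level hd
  obtain ⟨k, rfl⟩ : ∃ k, m = k + 1 := ⟨m - 1, by omega⟩
  obtain ⟨e, he, h3, s, hs, h4⟩ := P.root_aux hi a h1 k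
  rw [mul_inv_cancel_left, ← h] at h3
  have he1 : e = 1 := by
    have : a ^ (k + 1) * 1 = a ^ (k + 1) * e := by rw [mul_one]; exact h3
    exact (mul_left_cancel this).symm
  rw [he1, (P.homOn hi).one] at h4
  have h5 : P.rho i (a⁻¹ * b) = 0 := by
    rcases mul_eq_zero.mp h4.symm with h | h
    · exact absurd h hs.ne'
    · exact h
  exact h2 ((P.ker i hi _ h1).1 h5)

theorem PosChain.commute_of_pow (P : PosChain G n) {a g : G} {m : ℕ} (hm : 0 < m)
    (h : g * a ^ m = a ^ m * g) : g * a = a * g := by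
  have h1 : (g * a * g⁻¹) ^ m = a ^ m := by
    rw [conj_pow, h]; group
  have h2 := P.root hm h1
  calc g * a = (g * a * g⁻¹) * g := by group
    _ = a * g := by rw [h2]

/-- a maximal abelian subgroup normalised by `N` -/
theorem PosChain.exists_max (P : PosChain G n) : ∃ A : Subgroup G, A ≤ P.N ∧
    (∀ x ∈ A, ∀ y ∈ A, x * y = y * x) ∧ (∀ g ∈ P.N, ∀ x ∈ A, g * x * g⁻¹ ∈ A) ∧
    (∀ x ∈ P.N, (∀ a ∈ A, x * a = a * x) → x ∈ A) := by
  set S : Set (Subgroup G) := {A | A ≤ P.N ∧ (∀ x ∈ A, ∀ y ∈ A, x * y = y * x) ∧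
    (∀ g ∈ P.N, ∀ x ∈ A, g * x * g⁻¹ ∈ A)} with hS
  have hbot : (⊥ : Subgroup G) ∈ S := by
    refine ⟨bot_le, ?_, ?_⟩
    · intro x hx y hy
      rw [Subgroup.mem_bot] at hx hy
      rw [hx, hy]
    · intro g _ x hx
      rw [Subgroup.mem_bot] at hx ⊢
      rw [hx]; group
  obtain ⟨A, _, hA⟩ := zorn_le_nonempty₀ S (by
    intro c hc hchain y hy
    have hdir : DirectedOn (· ≤ ·) c := hchain.directedOn
    refine ⟨sSup c, ⟨?_, ?_, ?_⟩, fun z hz => le_sSup hz⟩
    · exact sSup_le fun B hB => (hc hB).1
    · intro x hx z hz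
      rw [Subgroup.mem_sSup_of_directedOn ⟨y, hy⟩ hdir] at hx hz
      obtain ⟨B, hB, hxB⟩ := hx
      obtain ⟨C, hC, hzC⟩ := hz
      obtain ⟨E, hE, hBE, hCE⟩ := hdir B hB C hC
      exact (hc hE).2.1 x (hBE hxB) z (hCE hzC)
    · intro g hg x hx
      rw [Subgroup.mem_sSup_of_directedOn ⟨y, hy⟩ hdir] at hx ⊢
      obtain ⟨B, hB, hxB⟩ := hx
      exact ⟨B, hB, (hc hB).2.2 g hg x hxB⟩) ⊥ hbot
  obtain ⟨hAN, hAc, hAn⟩ := hA.prop
  refine ⟨A, hAN, hAc, hAn, ?_⟩
  -- self centralising
  have key : ∀ k, k ≤ n → ∀ x ∈ P.N, (∀ a ∈ A, x * a = a * x) → x ∈ P.D (n - k) → x ∈ A := by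
    intro k
    induction k with
    | zero =>
      intro _ x _ _ hx
      rw [Nat.sub_zero, P.Dn, Subgroup.mem_bot] at hx
      rw [hx]; exact A.one_mem
    | succ k ih =>
      intro hk x hxN hxc hxD
      have hi : n - (k + 1) < n := by omega
      have hi' : n - (k + 1) + 1 = n - k := by omega
      have hcom : ∀ g ∈ P.N, g * x * g⁻¹ * x⁻¹ ∈ A := by
        intro g hg
        apply ih (by omega)
        · exact P.N.mul_mem (P.N.mul_mem (P.N.mul_mem hg hxN) (P.N.inv_mem hg)) (P.N.inv_mem hxN)
        · intro a ha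
          have h1 : g⁻¹ * a * g ∈ A := by
            have := hAn g⁻¹ (P.N.inv_mem hg) a ha
            rwa [inv_inv] at this
          have h2 := hxc _ h1
          have h3 := hxc a ha
          have h4 : x⁻¹ * a = a * x⁻¹ := by
            have : x⁻¹ * (x * a) * x⁻¹ = x⁻¹ * (a * x) * x⁻¹ := by rw [h3]
            calc x⁻¹ * a = x⁻¹ * (a * x) * x⁻¹ := by group
              _ = x⁻¹ * (x * a) * x⁻¹ := by rw [h3]
              _ = a * x⁻¹ := by group
          calc g * x * g⁻¹ * x⁻¹ * a = g * x * g⁻¹ * (x⁻¹ * a) := by group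
            _ = g * x * g⁻¹ * (a * x⁻¹) := by rw [h4]
            _ = g * (x * (g⁻¹ * a * g)) * g⁻¹ * x⁻¹ := by group
            _ = g * ((g⁻¹ * a * g) * x) * g⁻¹ * x⁻¹ := by rw [h2]
            _ = a * (g * x * g⁻¹ * x⁻¹) := by group
        · rw [← hi']
          exact P.comm_mem hi hg hxD
      set s : Set G := insert x (A : Set G) with hs
      have hsc : ∀ y ∈ s, ∀ z ∈ s, y * z = z * y := by
        intro y hy z hz
        rcases hy with rfl | hy <;> rcases hz with rfl | hz
        · rfl
        · exact hxc z hz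
        · exact (hxc y hy).symm
        · exact hAc y hy z hz
      have hA' : Subgroup.closure s ∈ S := by
        refine ⟨?_, ?_, ?_⟩
        · rw [Subgroup.closure_le]
          intro y hy
          rcases hy with rfl | hy
          · exact hxN
          · exact hAN hy
        · intro y hy z hz
          have h1 : Subgroup.closure s ≤ Subgroup.centralizer s := by
            rw [Subgroup.closure_le]
            intro y hy
            rw [SetLike.mem_coe, Subgroup.mem_centralizer_iff]
            intro z hz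
            exact hsc z hz y hy
          have h2 : Subgroup.closure s ≤ Subgroup.centralizer (Subgroup.closure s : Set G) := by
            rw [Subgroup.closure_le]
            intro y hy
            rw [SetLike.mem_coe, Subgroup.mem_centralizer_iff]
            intro z hz
            have := h1 hz
            rw [Subgroup.mem_centralizer_iff] at this
            exact (this y hy).symm
          have h3 := h2 hz
          rw [Subgroup.mem_centralizer_iff] at h3
          exact h3 y hy
        · intro g hg y hy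
          have h1 : Subgroup.closure s ≤
              (Subgroup.closure s).comap (MulAut.conj g).toMonoidHom := by
            rw [Subgroup.closure_le]
            intro y hy
            rw [SetLike.mem_coe, Subgroup.mem_comap]
            change g * y * g⁻¹ ∈ _
            rcases hy with rfl | hy
            · have h2 : g * y * g⁻¹ = (g * y * g⁻¹ * y⁻¹) * y := by group
              rw [h2]
              apply Subgroup.mul_mem
              · exact Subgroup.subset_closure (Set.mem_insert_of_mem _ (hcom g hg))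
              · exact Subgroup.subset_closure (Set.mem_insert _ _)
            · exact Subgroup.subset_closure (Set.mem_insert_of_mem _ (hAn g hg y hy))
          exact h1 hy
      have hle : A ≤ Subgroup.closure s := by
        intro a ha
        exact Subgroup.subset_closure (Set.mem_insert_of_mem _ ha)
      have := hA.2 hA' hle
      exact this (Subgroup.subset_closure (Set.mem_insert _ _))
  intro x hxN hxc
  exact key n le_rfl x hxN hxc (by rw [Nat.sub_self, P.D0]; exact Subgroup.mem_top _)

/-- elements of `M` whose commutator with `a` lies in the `j`-th term -/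
def PosChain.Mj (P : PosChain G n) (M : Subgroup G) (a : G) (j : ℕ) (hj : j ≤ n) : Subgroup G where
  carrier := {g | g ∈ M ∧ g * a * g⁻¹ * a⁻¹ ∈ P.D j}
  mul_mem' := by
    rintro g h ⟨hg, hg'⟩ ⟨hh, hh'⟩
    refine ⟨M.mul_mem hg hh, ?_⟩
    have h1 : g * h * a * (g * h)⁻¹ * a⁻¹ = (g * (h * a * h⁻¹ * a⁻¹) * g⁻¹) * (g * a * g⁻¹ * a⁻¹) := by
      group
    rw [h1]
    exact (P.D j).mul_mem (P.conj_mem hj g hh') hg'
  one_mem' := ⟨M.one_mem, by
    have : (1 : G) * a * 1⁻¹ * a⁻¹ = 1 := by group
    rw [this]; exact Subgroup.one_mem _⟩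
  inv_mem' := by
    rintro g ⟨hg, hg'⟩
    refine ⟨M.inv_mem hg, ?_⟩
    have h1 : g⁻¹ * a * g⁻¹⁻¹ * a⁻¹ = g⁻¹ * (g * a * g⁻¹ * a⁻¹)⁻¹ * g⁻¹⁻¹ := by group
    rw [h1]
    exact P.conj_mem hj g⁻¹ ((P.D j).inv_mem hg')

theorem PosChain.J_centralizer (P : PosChain G n) {r : ℕ} (hr : SpecialRankLE G r)
    {A : Subgroup G} (hAn : ∀ g ∈ P.N, ∀ x ∈ A, g * x * g⁻¹ ∈ A) (hAJ : (P.J A).card ≤ r)
    {M : Subgroup G} (hM : M ≤ P.N) {a : G} (ha : a ∈ A) :
    (P.J M).card ≤ (P.J (M ⊓ Subgroup.centralizer {a})).card + r * r := by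
  classical
  have key : ∀ k (hk : k ≤ n), (P.J M).card ≤ (P.J (P.Mj M a k hk)).card +
      r * ((P.J A).filter (fun j => j < k)).card := by
    intro k
    induction k with
    | zero =>
      intro hk
      have : P.Mj M a 0 hk = M := by
        ext g
        change (g ∈ M ∧ g * a * g⁻¹ * a⁻¹ ∈ P.D 0) ↔ g ∈ M
        rw [P.D0]
        exact ⟨fun h => h.1, fun h => ⟨h, Subgroup.mem_top _⟩⟩
      rw [this]
      omega
    | succ k ih =>
      intro hk
      have hk' : k < n := by omega
      have h1 := ih hk'.le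
      by_cases hkA : k ∈ P.J A
      · have hhom : HomOn (P.Mj M a k hk'.le) (P.Mj M a (k + 1) hk) ℝ
            (fun g => P.rho k (g * a * g⁻¹ * a⁻¹)) := by
          constructor
          · rintro g ⟨hg, hg'⟩ h ⟨hh, hh'⟩
            have h1 : g * h * a * (g * h)⁻¹ * a⁻¹ =
                (g * (h * a * h⁻¹ * a⁻¹) * g⁻¹) * (g * a * g⁻¹ * a⁻¹) := by
              group
            have h2 := (P.sc_spec hk' g).2 _ hh'
            simp only [h1]
            rw [P.add k hk' _ h2.1 _ hg', h2.2, hM hg k hk']
            ring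
          · rintro g ⟨hg, hg'⟩
            rw [P.ker k hk' _ hg']
            constructor
            · intro h; exact ⟨hg, h⟩
            · intro h; exact h.2
        have h2 := P.J_card_le hr hhom
        have h3 : ((P.J A).filter (fun j => j < k)).card + 1 ≤
            ((P.J A).filter (fun j => j < k + 1)).card := by
          rw [← Finset.card_insert_of_notMem (a := k) (by simp)]
          apply Finset.card_le_card
          intro j hj
          rw [Finset.mem_insert, Finset.mem_filter] at hj
          rw [Finset.mem_filter]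
          rcases hj with rfl | hj
          · exact ⟨hkA, by omega⟩
          · exact ⟨hj.1, by omega⟩
        calc (P.J M).card ≤ (P.J (P.Mj M a k hk'.le)).card +
              r * ((P.J A).filter (fun j => j < k)).card := h1
          _ ≤ (P.J (P.Mj M a (k + 1) hk)).card + r +
              r * ((P.J A).filter (fun j => j < k)).card := by omega
          _ = (P.J (P.Mj M a (k + 1) hk)).card +
              r * (((P.J A).filter (fun j => j < k)).card + 1) := by ring
          _ ≤ _ := by gcongr
      · have heq : P.Mj M a k hk'.le = P.Mj M a (k + 1) hk := by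
          ext g
          constructor
          · rintro ⟨hg, hg'⟩
            refine ⟨hg, ?_⟩
            by_contra hcon
            apply hkA
            rw [P.mem_J]
            exact ⟨hk', _, A.mul_mem (hAn g (hM hg) a ha) (A.inv_mem ha), hg', hcon⟩
          · rintro ⟨hg, hg'⟩
            exact ⟨hg, P.anti k hk' hg'⟩
        rw [← heq]
        have h3 : ((P.J A).filter (fun j => j < k)).card ≤
            ((P.J A).filter (fun j => j < k + 1)).card := by
          apply Finset.card_le_card
          intro j hj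
          rw [Finset.mem_filter] at hj ⊢
          exact ⟨hj.1, by omega⟩
        have h4 := Nat.mul_le_mul_left r h3
        omega
  have h1 := key n le_rfl
  have heq : P.Mj M a n le_rfl = M ⊓ Subgroup.centralizer {a} := by
    ext g
    rw [Subgroup.mem_inf, Subgroup.mem_centralizer_iff]
    constructor
    · rintro ⟨hg, hg'⟩
      refine ⟨hg, ?_⟩
      intro y hy
      rw [Set.mem_singleton_iff] at hy
      subst hy
      rw [P.Dn, Subgroup.mem_bot] at hg'
      have : g * y * g⁻¹ * y⁻¹ * y * g = y * g := by rw [hg', one_mul]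
      have h2 : g * y * g⁻¹ * y⁻¹ * y * g = g * y := by group
      rw [← this, h2]
    · rintro ⟨hg, hg'⟩
      refine ⟨hg, ?_⟩
      have h2 := hg' a (Set.mem_singleton _)
      rw [P.Dn, Subgroup.mem_bot, ← h2]
      group
  rw [heq] at h1
  have h2 : ((P.J A).filter (fun j => j < n)).card ≤ r :=
    (Finset.card_le_card (Finset.filter_subset _ _)).trans hAJ
  have h3 := Nat.mul_le_mul_left r h2
  omega

theorem PosChain.le_bound (P : PosChain G n) {r : ℕ} (hr : SpecialRankLE G r) :
    n ≤ r ^ 3 + 2 * r := by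
  classical
  obtain ⟨A, hAN, hAc, hAn, hAself⟩ := P.exists_max
  obtain ⟨V, _, θ, hθ⟩ := exists_homOn A ⊥ (by
    intro x hx y hy
    rw [Subgroup.mem_bot, hAc x hx y hy]
    group)
  have hAJ : (P.J A).card ≤ r := by
    have := P.J_card_le hr hθ
    rw [P.J_bot, Finset.card_empty, zero_add] at this
    exact this
  obtain ⟨T, hTr, hTA, hT⟩ := hθ.exists_finset hr
  have key : ∀ T : Finset G, (T : Set G) ⊆ A → (P.J P.N).card ≤
      (P.J (P.N ⊓ Subgroup.centralizer (T : Set G))).card + T.card * (r * r) := by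
    intro T
    induction T using Finset.induction_on with
    | empty =>
      intro _
      have : P.N ⊓ Subgroup.centralizer ((∅ : Finset G) : Set G) = P.N := by
        rw [inf_eq_left]
        intro g _
        rw [Subgroup.mem_centralizer_iff]
        intro y hy
        simp at hy
      rw [this]
      omega
    | insert a T haT ih =>
      intro hsub
      have h1 := ih (fun y hy => hsub (by simp [Finset.mem_coe.mp hy]))
      have haA : a ∈ A := hsub (by simp)
      have h2 := P.J_centralizer hr hAn hAJ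
        (M := P.N ⊓ Subgroup.centralizer (T : Set G)) inf_le_left haA
      have h3 : P.N ⊓ Subgroup.centralizer (T : Set G) ⊓ Subgroup.centralizer {a} =
          P.N ⊓ Subgroup.centralizer ((insert a T : Finset G) : Set G) := by
        ext g
        simp only [Subgroup.mem_inf, Subgroup.mem_centralizer_iff, Finset.coe_insert,
          Set.mem_insert_iff, Set.mem_singleton_iff, forall_eq_or_imp, forall_eq]
        tauto
      rw [h3] at h2
      rw [Finset.card_insert_of_notMem haT, add_mul, one_mul]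
      omega
  have h1 := key T hTA
  have h2 : P.N ⊓ Subgroup.centralizer (T : Set G) ≤ A := by
    intro g hg
    rw [Subgroup.mem_inf, Subgroup.mem_centralizer_iff] at hg
    obtain ⟨hgN, hgT⟩ := hg
    apply hAself g hgN
    intro a ha
    obtain ⟨m, hm, y, hy, hym⟩ := hT a ha
    rw [Subgroup.mem_bot, inv_mul_eq_one] at hym
    apply P.commute_of_pow hm
    rw [← hym]
    have h3 : Subgroup.closure (T : Set G) ≤ Subgroup.centralizer {g} := by
      rw [Subgroup.closure_le]
      intro t ht
      rw [SetLike.mem_coe, Subgroup.mem_centralizer_iff]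
      intro z hz
      rw [Set.mem_singleton_iff] at hz
      rw [hz]
      exact (hgT t ht).symm
    have h4 := h3 hy
    rw [Subgroup.mem_centralizer_iff] at h4
    exact h4 g (Set.mem_singleton _)
  have h3 : (P.J (P.N ⊓ Subgroup.centralizer (T : Set G))).card ≤ r :=
    (Finset.card_le_card (P.J_mono h2)).trans hAJ
  have h4 := P.J_card_le hr P.homOn_N
  rw [P.J_top, Finset.card_range] at h4
  have h5 : T.card * (r * r) ≤ r * (r * r) := Nat.mul_le_mul_right _ hTr
  have h6 : r ^ 3 = r * (r * r) := by ring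
  omega

end Pool.Agent.Work.MP_25be31_al
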