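import Mathlib

/-!
Convex jumps of a bi-invariantly totally ordered group: the real valued function of a jump.
-/

set_option linter.unusedSectionVars false

namespace Pool.Agent.Work.MP_25be31_al

universe u

section

variable {G : Type u} [Group G] [LinearOrder G] [MulLeftMono G] [MulRightMono G]

theorem inv_anti {a b : G} (h : a ≤ b) : b⁻¹ ≤ a⁻¹ := by
  calc b⁻¹ = b⁻¹ * a * a⁻¹ := by group
    _ ≤ b⁻¹ * b * a⁻¹ := mul_le_mul_left (mul_le_mul_right h _) _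
    _ = a⁻¹ := by group

theorem inv_anti_iff {a b : G} : b⁻¹ ≤ a⁻¹ ↔ a ≤ b :=
  ⟨fun h => by simpa using inv_anti h, inv_anti⟩

theorem abs_mul_le {a b C : ℝ} (hb : 0 < b) (h1 : -C ≤ a * b) (h2 : a * b ≤ C) : |a| * b ≤ C := by
  have : |a| * b = |a * b| := by rw [abs_mul, abs_of_pos hb]
  rw [this, abs_le]
  exact ⟨h1, h2⟩

theorem zmono {x : G} (hx : 1 < x) {m n : ℤ} (h : m ≤ n) : x ^ m ≤ x ^ n := by
  have h1 : x ^ n = x ^ m * x ^ (n - m) := by rw [← zpow_add]; congr 1; ring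
  rw [h1]
  exact le_mul_of_one_le_right' (one_le_zpow hx.le (by omega))

theorem zstrict {x : G} (hx : 1 < x) {m n : ℤ} (h : m < n) : x ^ m < x ^ n := by
  have h1 : x ^ n = x ^ m * x ^ (n - m) := by rw [← zpow_add]; congr 1; ring
  rw [h1]
  exact lt_mul_of_one_lt_right' _ (one_lt_zpow hx (by omega))

theorem lt_of_zlt {x : G} (hx : 1 < x) {m n : ℤ} (h : x ^ m < x ^ n) : m < n := by
  by_contra hcon
  exact absurd h (not_lt.mpr (zmono hx (not_lt.mp hcon)))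

/-- the convex subgroup generated by `x` -/
def hull (x : G) : Subgroup G where
  carrier := {y | ∃ n : ℕ, (x ^ n)⁻¹ ≤ y ∧ y ≤ x ^ n}
  mul_mem' := by
    rintro a b ⟨n, h1, h2⟩ ⟨m, h3, h4⟩
    refine ⟨n + m, ?_, ?_⟩
    · have : (x ^ (n + m))⁻¹ = (x ^ n)⁻¹ * (x ^ m)⁻¹ := by
        rw [add_comm, pow_add, mul_inv_rev]
      rw [this]
      exact mul_le_mul' h1 h3
    · rw [pow_add]
      exact mul_le_mul' h2 h4
  one_mem' := ⟨0, by simp⟩
  inv_mem' := by
    rintro a ⟨n, h1, h2⟩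
    exact ⟨n, inv_anti h2, by rw [← inv_inv (x ^ n)]; exact inv_anti h1⟩

theorem mem_hull_self {x : G} (hx : 1 ≤ x) : x ∈ hull x :=
  ⟨1, by rw [pow_one]; exact (inv_le_one'.mpr hx).trans hx, by rw [pow_one]⟩

/-- convex subgroup -/
def Cvx (C : Subgroup G) : Prop := ∀ a b g : G, a ∈ C → b ∈ C → a ≤ g → g ≤ b → g ∈ C

theorem pow_mono_nat {x : G} (hx : 1 ≤ x) {m n : ℕ} (h : m ≤ n) : x ^ m ≤ x ^ n := by
  have h1 : x ^ n = x ^ m * x ^ (n - m) := by rw [← pow_add]; congr 1; omega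
  rw [h1]
  exact le_mul_of_one_le_right' (one_le_pow_of_one_le' hx _)

theorem cvx_hull {x : G} (hx : 1 ≤ x) : Cvx (hull x) := by
  rintro a b g ⟨n, h1, h2⟩ ⟨m, h3, h4⟩ hag hgb
  refine ⟨n + m, ?_, ?_⟩
  · exact ((inv_anti (pow_mono_nat hx (Nat.le_add_right n m))).trans h1).trans hag
  · exact hgb.trans (h4.trans (pow_mono_nat hx (Nat.le_add_left m n)))

/-- integer part of the logarithm of `y` to base `x` -/
noncomputable def kf (x y : G) : ℤ := sSup {k : ℤ | x ^ k ≤ y}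

theorem kf_spec {x y : G} (hx : 1 < x) (hy : y ∈ hull x) :
    x ^ kf x y ≤ y ∧ y < x ^ (kf x y + 1) := by
  obtain ⟨n, h1, h2⟩ := hy
  have hne : ({k : ℤ | x ^ k ≤ y}).Nonempty := ⟨-(n : ℤ), by simpa using h1⟩
  have hbdd : BddAbove {k : ℤ | x ^ k ≤ y} := by
    refine ⟨n, ?_⟩
    intro k hk
    have h3 : x ^ k ≤ x ^ (n : ℤ) := by
      rw [zpow_natCast]; exact le_trans hk h2
    by_contra hcon
    exact absurd h3 (not_le.mpr (zstrict hx (not_le.mp hcon)))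
  refine ⟨Int.csSup_mem hne hbdd, ?_⟩
  by_contra hcon
  have := le_csSup hbdd (show kf x y + 1 ∈ {k : ℤ | x ^ k ≤ y} from not_lt.mp hcon)
  change kf x y + 1 ≤ kf x y at this
  omega

theorem le_kf {x y : G} (hx : 1 < x) (hy : y ∈ hull x) {k : ℤ} (h : x ^ k ≤ y) : k ≤ kf x y := by
  have := (kf_spec hx hy).2
  have := lt_of_zlt hx (h.trans_lt this)
  omega

theorem kf_lt {x y : G} (hx : 1 < x) (hy : y ∈ hull x) {k : ℤ} (h : y < x ^ k) : kf x y < k :=
  lt_of_zlt hx ((kf_spec hx hy).1.trans_lt h)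

theorem kf_cross {x y : G} (hx : 1 < x) (hy : y ∈ hull x) (n m : ℕ) :
    kf x (y ^ (n + 1)) * (m + 1) < (kf x (y ^ (m + 1)) + 1) * (n + 1) := by
  have h1 := (kf_spec hx ((hull x).pow_mem hy (n + 1))).1
  have h2 := (kf_spec hx ((hull x).pow_mem hy (m + 1))).2
  have h3 : (x ^ kf x (y ^ (n + 1))) ^ (m + 1) ≤ (y ^ (n + 1)) ^ (m + 1) := pow_le_pow_left' h1 _
  have h4 : (y ^ (m + 1)) ^ (n + 1) < (x ^ (kf x (y ^ (m + 1)) + 1)) ^ (n + 1) :=
    pow_lt_pow_left' (by omega) h2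
  rw [← pow_mul] at h3
  rw [← pow_mul, mul_comm (m + 1) (n + 1)] at h4
  have h5 := h3.trans_lt h4
  have e1 : ∀ (k : ℤ) (l : ℕ), (x ^ k) ^ l = x ^ (k * (l : ℤ)) := by
    intro k l
    rw [zpow_mul, zpow_natCast]
  rw [e1, e1] at h5
  have := lt_of_zlt hx h5
  push_cast at this
  exact this

/-- the real number `log_x y` -/
noncomputable def rho (x y : G) : ℝ := ⨆ n : ℕ, (kf x (y ^ (n + 1)) : ℝ) / (n + 1)

theorem rho_bounds {x y : G} (hx : 1 < x) (hy : y ∈ hull x) (m : ℕ) :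
    (kf x (y ^ (m + 1)) : ℝ) / (m + 1) ≤ rho x y ∧
      rho x y ≤ ((kf x (y ^ (m + 1)) : ℝ) + 1) / (m + 1) := by
  have hub : ∀ n m : ℕ, (kf x (y ^ (n + 1)) : ℝ) / (n + 1) ≤
      ((kf x (y ^ (m + 1)) : ℝ) + 1) / (m + 1) := by
    intro n m
    rw [div_le_div_iff₀ (by positivity) (by positivity)]
    exact_mod_cast (kf_cross hx hy n m).le
  constructor
  · exact le_ciSup (f := fun n : ℕ => (kf x (y ^ (n + 1)) : ℝ) / (n + 1))
      ⟨((kf x (y ^ (0 + 1)) : ℝ) + 1) / ((0 : ℕ) + 1), by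
        rintro _ ⟨n, rfl⟩
        exact hub n 0⟩ m
  · exact ciSup_le (fun n => hub n m)

theorem eq_of_abs_le {a b C : ℝ} (h : ∀ m : ℕ, |a - b| ≤ C / (m + 1)) : a = b := by
  by_contra hne
  have hpos : 0 < |a - b| := abs_pos.mpr (sub_ne_zero.mpr hne)
  obtain ⟨m, hm⟩ := exists_nat_gt (C / |a - b|)
  have h1 := h m
  rw [le_div_iff₀ (by positivity)] at h1
  rw [div_lt_iff₀ hpos] at hm
  nlinarith

theorem pow_mul_comm_aux {y z : G} (h : y * z ≤ z * y) (k : ℕ) : y * z ^ k ≤ z ^ k * y := by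
  induction k with
  | zero => simp
  | succ k ih =>
    calc y * z ^ (k + 1) = (y * z ^ k) * z := by rw [pow_succ, mul_assoc]
      _ ≤ (z ^ k * y) * z := mul_le_mul_left ih z
      _ = z ^ k * (y * z) := by rw [mul_assoc]
      _ ≤ z ^ k * (z * y) := mul_le_mul_right h _
      _ = z ^ (k + 1) * y := by rw [pow_succ, mul_assoc]

theorem pow_mul_comm_aux' {y z : G} (h : y * z ≤ z * y) (k : ℕ) : y ^ k * z ≤ z * y ^ k := by
  induction k with
  | zero => simp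
  | succ k ih =>
    calc y ^ (k + 1) * z = y ^ k * (y * z) := by rw [pow_succ, mul_assoc]
      _ ≤ y ^ k * (z * y) := mul_le_mul_right h _
      _ = (y ^ k * z) * y := by rw [mul_assoc]
      _ ≤ (z * y ^ k) * y := mul_le_mul_left ih y
      _ = z * y ^ (k + 1) := by rw [pow_succ, mul_assoc]

theorem pow_mul_le {y z : G} (h : y * z ≤ z * y) (n : ℕ) :
    y ^ n * z ^ n ≤ (y * z) ^ n ∧ (y * z) ^ n ≤ z ^ n * y ^ n := by
  induction n with
  | zero => simp
  | succ n ih =>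
    constructor
    · calc y ^ (n + 1) * z ^ (n + 1) = y ^ n * (y * z ^ n) * z := by
            rw [pow_succ, pow_succ]; simp only [mul_assoc]
        _ ≤ y ^ n * (z ^ n * y) * z :=
            mul_le_mul_left (mul_le_mul_right (pow_mul_comm_aux h n) _) _
        _ = (y ^ n * z ^ n) * (y * z) := by simp only [mul_assoc]
        _ ≤ (y * z) ^ n * (y * z) := mul_le_mul_left ih.1 _
        _ = (y * z) ^ (n + 1) := by rw [pow_succ]
    · calc (y * z) ^ (n + 1) = (y * z) ^ n * (y * z) := by rw [pow_succ]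
        _ ≤ (z ^ n * y ^ n) * (y * z) := mul_le_mul_left ih.2 _
        _ = z ^ n * (y ^ (n + 1) * z) := by rw [pow_succ]; simp only [mul_assoc]
        _ ≤ z ^ n * (z * y ^ (n + 1)) := mul_le_mul_right (pow_mul_comm_aux' h (n + 1)) _
        _ = z ^ (n + 1) * y ^ (n + 1) := by rw [pow_succ z n]; simp only [mul_assoc]

theorem kf_add {x y z : G} (hx : 1 < x) (hy : y ∈ hull x) (hz : z ∈ hull x) (n : ℕ) :
    kf x (y ^ n) + kf x (z ^ n) ≤ kf x ((y * z) ^ n) ∧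
      kf x ((y * z) ^ n) < kf x (y ^ n) + kf x (z ^ n) + 2 := by
  have hyn := (hull x).pow_mem hy n
  have hzn := (hull x).pow_mem hz n
  have hyz := (hull x).pow_mem ((hull x).mul_mem hy hz) n
  obtain ⟨a1, a2⟩ := kf_spec hx hyn
  obtain ⟨b1, b2⟩ := kf_spec hx hzn
  have lo1 : x ^ (kf x (y ^ n) + kf x (z ^ n)) ≤ y ^ n * z ^ n := by
    rw [zpow_add]; exact mul_le_mul' a1 b1
  have lo2 : x ^ (kf x (y ^ n) + kf x (z ^ n)) ≤ z ^ n * y ^ n := by
    rw [add_comm, zpow_add]; exact mul_le_mul' b1 a1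
  have up1 : y ^ n * z ^ n < x ^ (kf x (y ^ n) + kf x (z ^ n) + 2) := by
    have : kf x (y ^ n) + kf x (z ^ n) + 2 = (kf x (y ^ n) + 1) + (kf x (z ^ n) + 1) := by ring
    rw [this, zpow_add]
    exact mul_lt_mul_of_lt_of_lt a2 b2
  have up2 : z ^ n * y ^ n < x ^ (kf x (y ^ n) + kf x (z ^ n) + 2) := by
    have : kf x (y ^ n) + kf x (z ^ n) + 2 = (kf x (z ^ n) + 1) + (kf x (y ^ n) + 1) := by ring
    rw [this, zpow_add]
    exact mul_lt_mul_of_lt_of_lt b2 a2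
  rcases le_total (y * z) (z * y) with h | h
  · obtain ⟨h1, h2⟩ := pow_mul_le h n
    exact ⟨le_kf hx hyz (lo1.trans h1), kf_lt hx hyz (h2.trans_lt up2)⟩
  · have key : z ^ n * y ^ n ≤ (y * z) ^ n ∧ (y * z) ^ n ≤ y ^ n * z ^ n := by
      -- inverse trick
      have h3 : z⁻¹ * y⁻¹ ≤ y⁻¹ * z⁻¹ := by
        rw [← mul_inv_rev, ← mul_inv_rev]
        exact inv_anti h
      obtain ⟨h4, h5⟩ := pow_mul_le h3 n
      rw [← mul_inv_rev, inv_pow, inv_pow, inv_pow, ← mul_inv_rev] at h4 h5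
      exact ⟨inv_anti_iff.mp h5, inv_anti_iff.mp h4⟩
    exact ⟨le_kf hx hyz (lo2.trans key.1), kf_lt hx hyz (key.2.trans_lt up1)⟩

theorem rho_mul {x y z : G} (hx : 1 < x) (hy : y ∈ hull x) (hz : z ∈ hull x) :
    rho x (y * z) = rho x y + rho x z := by
  apply eq_of_abs_le (C := 2)
  intro m
  obtain ⟨a1, a2⟩ := rho_bounds hx hy m
  obtain ⟨b1, b2⟩ := rho_bounds hx hz m
  obtain ⟨c1, c2⟩ := rho_bounds hx ((hull x).mul_mem hy hz) m
  obtain ⟨d1, d2⟩ := kf_add hx hy hz (m + 1)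
  have hm : (0 : ℝ) < m + 1 := by positivity
  rw [div_le_iff₀ hm] at a1 b1 c1
  rw [le_div_iff₀ hm] at a2 b2 c2
  rw [le_div_iff₀ hm]
  have d1' : (kf x (y ^ (m + 1)) : ℝ) + kf x (z ^ (m + 1)) ≤ kf x ((y * z) ^ (m + 1)) := by
    exact_mod_cast d1
  have d2' : (kf x ((y * z) ^ (m + 1)) : ℝ) ≤ kf x (y ^ (m + 1)) + kf x (z ^ (m + 1)) + 1 := by
    exact_mod_cast (by omega : kf x ((y * z) ^ (m + 1)) ≤ kf x (y ^ (m + 1)) + kf x (z ^ (m + 1)) + 1)
  apply abs_mul_le hm <;> nlinarith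

theorem rho_one_le {x y : G} (hx : 1 < x) (hy : y ∈ hull x) (h : 1 ≤ y) : 0 ≤ rho x y := by
  have h1 := (rho_bounds hx hy 0).1
  have h2 : (0 : ℤ) ≤ kf x (y ^ (0 + 1)) := by
    apply le_kf hx ((hull x).pow_mem hy _)
    simpa using h
  have h3 : (0 : ℝ) ≤ kf x (y ^ (0 + 1)) := by exact_mod_cast h2
  refine le_trans ?_ h1
  positivity

theorem rho_self {x : G} (hx : 1 < x) : rho x x = 1 := by
  apply eq_of_abs_le (C := 1)
  intro m
  have hxx := mem_hull_self hx.le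
  obtain ⟨a1, a2⟩ := rho_bounds hx hxx m
  have hk : kf x (x ^ (m + 1)) = (m + 1 : ℕ) := by
    apply le_antisymm
    · have := kf_lt hx ((hull x).pow_mem hxx (m + 1)) (k := ((m + 1 : ℕ) : ℤ) + 1) (by
        rw [← zpow_natCast]
        exact zstrict hx (by omega))
      omega
    · apply le_kf hx ((hull x).pow_mem hxx (m + 1))
      rw [zpow_natCast]
  rw [hk] at a1 a2
  have hm : (0 : ℝ) < m + 1 := by positivity
  rw [div_le_iff₀ hm] at a1
  rw [le_div_iff₀ hm] at a2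
  rw [le_div_iff₀ hm]
  push_cast at a1 a2
  apply abs_mul_le hm <;> nlinarith

/-- a convex jump -/
structure Jump (C D : Subgroup G) : Prop where
  cC : Cvx C
  cD : Cvx D
  le : C ≤ D
  ne : C ≠ D
  max : ∀ E : Subgroup G, Cvx E → E ≤ D → E ≠ D → E ≤ C

theorem hull_le {D : Subgroup G} (hD : Cvx D) {x : G} (hx : x ∈ D) : hull x ≤ D := by
  rintro y ⟨n, h1, h2⟩
  exact hD _ _ _ (D.inv_mem (D.pow_mem hx n)) (D.pow_mem hx n) h1 h2

theorem Jump.le_hull {C D : Subgroup G} (J : Jump C D) {x : G} (hx : x ∈ D) (hxC : x ∉ C)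
    (h1 : 1 ≤ x) : D ≤ hull x := by
  by_contra hcon
  have hle := hull_le J.cD hx
  have hne : hull x ≠ D := fun h => hcon h.ge
  exact hxC (J.max _ (cvx_hull h1) hle hne (mem_hull_self h1))

theorem Jump.exists_pos {C D : Subgroup G} (J : Jump C D) : ∃ x ∈ D, x ∉ C ∧ 1 < x := by
  obtain ⟨x, hx, hxC⟩ : ∃ x ∈ D, x ∉ C := by
    by_contra hcon
    push Not at hcon
    exact J.ne (le_antisymm J.le hcon)
  rcases lt_trichotomy 1 x with h | h | h
  · exact ⟨x, hx, hxC, h⟩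
  · exact absurd (h ▸ C.one_mem) hxC
  · refine ⟨x⁻¹, D.inv_mem hx, ?_, one_lt_inv'.mpr h⟩
    intro hcon
    exact hxC (by simpa using C.inv_mem hcon)

theorem Jump.lt_of_mem {C D : Subgroup G} (J : Jump C D) {x c : G} (hxC : x ∉ C) (h1 : 1 < x)
    (hc : c ∈ C) : c < x := by
  by_contra hcon
  exact hxC (J.cC 1 c x C.one_mem hc h1.le (not_lt.mp hcon))

theorem Jump.rho_ker {C D : Subgroup G} (J : Jump C D) {x : G} (hx : x ∈ D) (hxC : x ∉ C)
    (h1 : 1 < x) {y : G} (hy : y ∈ D) : rho x y = 0 ↔ y ∈ C := by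
  have hD := J.le_hull hx hxC h1.le
  have hpos : ∀ z ∈ D, z ∉ C → 1 < z → 0 < rho x z := by
    intro z hz hzC hz1
    obtain ⟨n, _, hn⟩ := J.le_hull hz hzC hz1.le hx
    have hn0 : n ≠ 0 := by
      rintro rfl
      rw [pow_zero] at hn
      exact absurd h1 (not_lt.mpr hn)
    obtain ⟨m, rfl⟩ := Nat.exists_eq_succ_of_ne_zero hn0
    have h2 := (rho_bounds h1 (hD hz) m).1
    have h3 : (1 : ℤ) ≤ kf x (z ^ (m + 1)) := by
      apply le_kf h1 ((hull x).pow_mem (hD hz) _)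
      simpa using hn
    have h4 : (1 : ℝ) ≤ kf x (z ^ (m + 1)) := by exact_mod_cast h3
    refine lt_of_lt_of_le ?_ h2
    positivity
  constructor
  · intro h0
    by_contra hyC
    rcases lt_trichotomy 1 y with h | h | h
    · exact absurd h0 (hpos y hy hyC h).ne'
    · exact hyC (h ▸ C.one_mem)
    · have h2 := hpos y⁻¹ (D.inv_mem hy) (fun hc => hyC (by simpa using C.inv_mem hc))
        (one_lt_inv'.mpr h)
      have h3 := rho_mul h1 (hD hy) (hD (D.inv_mem hy))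
      rw [mul_inv_cancel, h0, zero_add] at h3
      have h4 := rho_mul h1 (hull x).one_mem (hull x).one_mem
      rw [one_mul] at h4
      have h5 : rho x 1 = 0 := by linarith
      rw [h5] at h3
      linarith
  · intro hyC
    apply eq_of_abs_le (C := 1)
    intro m
    obtain ⟨a1, a2⟩ := rho_bounds h1 (hD hy) m
    have hmem := (hull x).pow_mem (hD hy) (m + 1)
    have hk1 : kf x (y ^ (m + 1)) < 1 := by
      apply kf_lt h1 hmem
      rw [zpow_one]
      exact J.lt_of_mem hxC h1 (C.pow_mem hyC _)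
    have hk2 : -1 ≤ kf x (y ^ (m + 1)) := by
      apply le_kf h1 hmem
      have := J.lt_of_mem hxC h1 (C.inv_mem (C.pow_mem hyC (m + 1)))
      rw [zpow_neg, zpow_one]
      have h2 := inv_anti this.le
      rwa [inv_inv] at h2
    have hk1' : (kf x (y ^ (m + 1)) : ℝ) ≤ 0 := by exact_mod_cast (by omega : kf x (y ^ (m + 1)) ≤ 0)
    have hk2' : (-1 : ℝ) ≤ kf x (y ^ (m + 1)) := by exact_mod_cast hk2
    have hm : (0 : ℝ) < m + 1 := by positivity
    rw [div_le_iff₀ hm] at a1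
    rw [le_div_iff₀ hm] at a2
    rw [le_div_iff₀ hm, sub_zero]
    apply abs_mul_le hm <;> nlinarith

/-- an additive function that is non-negative on elements `≥ 1` is proportional to `rho` -/
theorem prop_rho {D : Subgroup G} {x : G} (hx : x ∈ D) (h1 : 1 < x) (hD : D ≤ hull x)
    {σ : G → ℝ} (hadd : ∀ a ∈ D, ∀ b ∈ D, σ (a * b) = σ a + σ b)
    (hnn : ∀ a ∈ D, 1 ≤ a → 0 ≤ σ a) {y : G} (hy : y ∈ D) : σ y = σ x * rho x y := by
  have hone : σ 1 = 0 := by
    have := hadd 1 D.one_mem 1 D.one_mem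
    rw [one_mul] at this; linarith
  have hinv : ∀ a ∈ D, σ a⁻¹ = - σ a := by
    intro a ha
    have := hadd a ha a⁻¹ (D.inv_mem ha)
    rw [mul_inv_cancel, hone] at this; linarith
  have hpow : ∀ a ∈ D, ∀ n : ℕ, σ (a ^ n) = n * σ a := by
    intro a ha n
    induction n with
    | zero => simp [hone]
    | succ n ih => rw [pow_succ, hadd _ (D.pow_mem ha n) _ ha, ih]; push_cast; ring
  have hzpow : ∀ a ∈ D, ∀ n : ℤ, σ (a ^ n) = n * σ a := by
    intro a ha n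
    cases n with
    | ofNat n => simpa using hpow a ha n
    | negSucc n =>
      rw [zpow_negSucc, hinv _ (D.pow_mem ha _), hpow a ha]
      push_cast; ring
  have hmono : ∀ a ∈ D, ∀ b ∈ D, a ≤ b → σ a ≤ σ b := by
    intro a ha b hb hab
    have h2 := hadd a ha (a⁻¹ * b) (D.mul_mem (D.inv_mem ha) hb)
    rw [mul_inv_cancel_left] at h2
    have h3 := hnn (a⁻¹ * b) (D.mul_mem (D.inv_mem ha) hb) (le_inv_mul_iff_mul_le.mpr (by simpa using hab))
    linarith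
  apply eq_of_abs_le (C := σ x)
  intro m
  obtain ⟨a1, a2⟩ := rho_bounds h1 (hD hy) m
  obtain ⟨b1, b2⟩ := kf_spec h1 ((hull x).pow_mem (hD hy) (m + 1))
  have c1 := hmono _ (D.zpow_mem hx _) _ (D.pow_mem hy _) b1
  have c2 := hmono _ (D.pow_mem hy _) _ (D.zpow_mem hx _) b2.le
  rw [hzpow x hx, hpow y hy] at c1 c2
  have hσx := hnn x hx h1.le
  push_cast at c1 c2
  have hm : (0 : ℝ) < m + 1 := by positivity
  rw [div_le_iff₀ hm] at a1
  rw [le_div_iff₀ hm] at a2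
  rw [le_div_iff₀ hm]
  apply abs_mul_le hm <;> nlinarith

theorem Jump.exists_rho {C D : Subgroup G} (J : Jump C D) (hC : C.Normal) (hDn : D.Normal) :
    ∃ ρ : G → ℝ, (∀ x ∈ D, ∀ y ∈ D, ρ (x * y) = ρ x + ρ y) ∧
      (∀ x ∈ D, (ρ x = 0 ↔ x ∈ C)) ∧
      (∀ g : G, ∃ c : ℝ, 0 < c ∧ ∀ x ∈ D, g * x * g⁻¹ ∈ D ∧ ρ (g * x * g⁻¹) = c * ρ x) := by
  obtain ⟨x, hx, hxC, h1⟩ := J.exists_pos
  have hD := J.le_hull hx hxC h1.le
  refine ⟨rho x, ?_, ?_, ?_⟩
  · intro a ha b hb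
    exact rho_mul h1 (hD ha) (hD hb)
  · intro y hy
    exact J.rho_ker hx hxC h1 hy
  · intro g
    have hconj : ∀ a : G, 1 ≤ a → 1 ≤ g * a * g⁻¹ := by
      intro a ha
      calc (1 : G) = g * 1 * g⁻¹ := by group
        _ ≤ g * a * g⁻¹ := mul_le_mul_left (mul_le_mul_right ha g) _
    have hmem : g * x * g⁻¹ ∈ D := hDn.conj_mem x hx g
    have hnot : g * x * g⁻¹ ∉ C := by
      intro hc
      have := hC.conj_mem _ hc g⁻¹
      apply hxC
      have e : g⁻¹ * (g * x * g⁻¹) * g⁻¹⁻¹ = x := by group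
      rwa [e] at this
    refine ⟨rho x (g * x * g⁻¹), ?_, ?_⟩
    · have h2 := rho_one_le h1 (hD hmem) (hconj x h1.le)
      rcases h2.lt_or_eq with h3 | h3
      · exact h3
      · exact absurd ((J.rho_ker hx hxC h1 hmem).1 h3.symm) hnot
    · intro y hy
      refine ⟨hDn.conj_mem y hy g, ?_⟩
      apply prop_rho (σ := fun a => rho x (g * a * g⁻¹)) hx h1 hD
      · intro a ha b hb
        have e : g * (a * b) * g⁻¹ = (g * a * g⁻¹) * (g * b * g⁻¹) := by group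
        simp only [e]
        exact rho_mul h1 (hD (hDn.conj_mem a ha g)) (hD (hDn.conj_mem b hb g))
      · intro a ha ha1
        exact rho_one_le h1 (hD (hDn.conj_mem a ha g)) (hconj a ha1)
      · exact hy

end

end Pool.Agent.Work.MP_25be31_al
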