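import Mathlib
import Pool.Agent.Work.MP_25be31_al.Bound
import Pool.Agent.Work.MP_25be31_al.Hoelder

/-!
Relative chains of convex jumps.
-/

set_option linter.unusedSectionVars false

namespace Pool.Agent.Work.MP_25be31_al

universe u

theorem SpecialRankLE.quot {G : Type u} [Group G] {r : ℕ} (h : SpecialRankLE G r)
    (N : Subgroup G) [N.Normal] : SpecialRankLE (G ⧸ N) r := by
  classical
  intro H hH
  obtain ⟨S, hS⟩ := hH
  have hfg : (Subgroup.closure ((S.image Quotient.out : Finset G) : Set G)).FG := ⟨_, rfl⟩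
  obtain ⟨T, hT, hcl⟩ := h _ hfg
  refine ⟨T.image (QuotientGroup.mk' N), Finset.card_image_le.trans hT, ?_⟩
  rw [Finset.coe_image, ← MonoidHom.map_closure, hcl, MonoidHom.map_closure, ← hS]
  congr 1
  ext q
  simp only [Finset.coe_image, Set.mem_image, Finset.mem_coe]
  constructor
  · rintro ⟨_, ⟨s, hs, rfl⟩, rfl⟩
    have : (QuotientGroup.mk' N) (Quotient.out s) = s := Quotient.out_eq s
    rw [this]
    exact hs
  · intro hq
    exact ⟨Quotient.out q, ⟨q, hq, rfl⟩, Quotient.out_eq q⟩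

theorem SpecialRankLE.sub {G : Type u} [Group G] {r : ℕ} (h : SpecialRankLE G r)
    (K : Subgroup G) : SpecialRankLE K r := by
  classical
  intro H hH
  have hfg : (H.map K.subtype).FG := by
    obtain ⟨S, hS⟩ := hH
    refine ⟨S.image K.subtype, ?_⟩
    rw [Finset.coe_image, ← MonoidHom.map_closure, hS]
  obtain ⟨T, hT, hcl⟩ := h _ hfg
  have hTK : ∀ t ∈ T, t ∈ K := by
    intro t ht
    have h1 : t ∈ H.map K.subtype := by
      rw [← hcl]; exact Subgroup.subset_closure ht
    obtain ⟨k, _, rfl⟩ := h1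
    exact k.2
  refine ⟨T.attach.image (fun t => (⟨t.1, hTK t.1 t.2⟩ : K)), ?_, ?_⟩
  · exact Finset.card_image_le.trans (by rw [Finset.card_attach]; exact hT)
  · apply Subgroup.map_injective K.subtype_injective
    rw [MonoidHom.map_closure, ← hcl]
    congr 1
    ext t
    simp only [Finset.coe_image, Set.mem_image, Finset.mem_coe]
    constructor
    · rintro ⟨_, ⟨s, _, rfl⟩, rfl⟩
      exact s.2
    · intro ht
      exact ⟨⟨t, hTK t ht⟩, ⟨⟨t, ht⟩, Finset.mem_attach _ _, rfl⟩, rfl⟩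

section

variable {G : Type u} [Group G] [LinearOrder G] [MulLeftMono G] [MulRightMono G]

/-- consecutive convex jumps, starting with the whole group -/
structure JChain (n : ℕ) (D : ℕ → Subgroup G) : Prop where
  top : D 0 = ⊤
  jump : ∀ i, i < n → Jump (D (i + 1)) (D i)
  normal : ∀ i, i ≤ n → (D i).Normal

theorem JChain.mono {n : ℕ} {D : ℕ → Subgroup G} (h : JChain n D) {i j : ℕ} (hij : i ≤ j)
    (hj : j ≤ n) : D j ≤ D i := by
  induction j, hij using Nat.le_induction with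
  | base => exact le_rfl
  | succ j hij ih => exact (h.jump j (by omega)).le.trans (ih (by omega))

theorem JChain.le_bound {n r : ℕ} {D : ℕ → Subgroup G} (h : JChain n D)
    (hr : SpecialRankLE G r) : n ≤ r ^ 3 + 2 * r := by
  classical
  have hN : (D n).Normal := h.normal n le_rfl
  have hex : ∀ i, ∃ ρ : G → ℝ, i < n → (∀ x ∈ D i, ∀ y ∈ D i, ρ (x * y) = ρ x + ρ y) ∧
      (∀ x ∈ D i, (ρ x = 0 ↔ x ∈ D (i + 1))) ∧
      (∀ g : G, ∃ c : ℝ, 0 < c ∧ ∀ x ∈ D i, g * x * g⁻¹ ∈ D i ∧ ρ (g * x * g⁻¹) = c * ρ x) := by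
    intro i
    by_cases hi : i < n
    · obtain ⟨ρ, h1⟩ := (h.jump i hi).exists_rho (h.normal (i + 1) hi) (h.normal i hi.le)
      exact ⟨ρ, fun _ => h1⟩
    · exact ⟨0, fun h' => absurd h' hi⟩
  choose ρ hρ using hex
  set π := QuotientGroup.mk' (D n) with hπ
  have hout : ∀ x : G, ∃ k ∈ D n, Quotient.out (π x) = x * k := by
    intro x
    obtain ⟨k, hk⟩ := QuotientGroup.mk_out_eq_mul (D n) x
    exact ⟨k, k.2, hk⟩
  have hval : ∀ i, i < n → ∀ x ∈ D i, ρ i (Quotient.out (π x)) = ρ i x := by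
    intro i hi x hx
    obtain ⟨k, hk, he⟩ := hout x
    rw [he]
    have hk' : k ∈ D (i + 1) := h.mono (show i + 1 ≤ n from hi) le_rfl hk
    have hk'' : k ∈ D i := (h.jump i hi).le hk'
    rw [(hρ i hi).1 x hx k hk'', ((hρ i hi).2.1 k hk'').2 hk', add_zero]
  have hmem : ∀ i, i ≤ n → ∀ x : G, π x ∈ (D i).map π → x ∈ D i := by
    intro i hi x hx
    obtain ⟨y, hy, hxy⟩ := hx
    have h1 : y⁻¹ * x ∈ D n := QuotientGroup.eq.1 hxy
    have h2 : y⁻¹ * x ∈ D i := h.mono hi le_rfl h1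
    have h3 := (D i).mul_mem hy h2
    rwa [mul_inv_cancel_left] at h3
  let P : PosChain (G ⧸ D n) n :=
    { D := fun i => (D i).map π
      rho := fun i q => ρ i (Quotient.out q)
      D0 := by
        rw [h.top, ← MonoidHom.range_eq_map]
        exact MonoidHom.range_eq_top.2 (QuotientGroup.mk'_surjective _)
      Dn := by
        rw [eq_bot_iff]
        rintro _ ⟨x, hx, rfl⟩
        rw [Subgroup.mem_bot]
        exact (QuotientGroup.eq_one_iff x).2 hx
      anti := fun i hi => Subgroup.map_mono (h.jump i hi).le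
      strict := by
        intro i hi
        obtain ⟨x, hx, hx', _⟩ := (h.jump i hi).exists_pos
        exact ⟨π x, ⟨x, hx, rfl⟩, fun hc => hx' (hmem (i + 1) hi x hc)⟩
      add := by
        rintro i hi _ ⟨x, hx, rfl⟩ _ ⟨y, hy, rfl⟩
        rw [← map_mul, hval i hi x hx, hval i hi y hy, hval i hi _ ((D i).mul_mem hx hy)]
        exact (hρ i hi).1 x hx y hy
      ker := by
        rintro i hi _ ⟨x, hx, rfl⟩
        rw [hval i hi x hx, (hρ i hi).2.1 x hx]
        exact ⟨fun hx' => ⟨x, hx', rfl⟩, fun hc => hmem (i + 1) hi x hc⟩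
      conj := by
        intro i hi q
        obtain ⟨g, rfl⟩ := QuotientGroup.mk'_surjective (D n) q
        obtain ⟨c, hc, hcx⟩ := (hρ i hi).2.2 g
        refine ⟨c, hc, ?_⟩
        rintro _ ⟨x, hx, rfl⟩
        obtain ⟨h1, h2⟩ := hcx x hx
        have e : π g * π x * (π g)⁻¹ = π (g * x * g⁻¹) := by
          rw [map_mul, map_mul, map_inv]
        refine ⟨?_, ?_⟩
        · rw [e]; exact ⟨_, h1, rfl⟩
        · rw [e, hval i hi _ h1, hval i hi x hx, h2] }
  exact P.le_bound (hr.quot (D n))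

/-- factors of a jump with normal terms are abelian -/
theorem Jump.comm {C D : Subgroup G} (J : Jump C D) {x y : G} (hx : x ∈ D) (hy : y ∈ D) :
    x * y * x⁻¹ * y⁻¹ ∈ C := by
  obtain ⟨z, hz, hzC, h1⟩ := J.exists_pos
  have hD := J.le_hull hz hzC h1.le
  have hadd : ∀ a ∈ D, ∀ b ∈ D, rho z (a * b) = rho z a + rho z b :=
    fun a ha b hb => rho_mul h1 (hD ha) (hD hb)
  have hH : HomOn D C ℝ (rho z) := ⟨hadd, fun a ha => J.rho_ker hz hzC h1 ha⟩
  exact hH.commutator hx hy

end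

end Pool.Agent.Work.MP_25be31_al
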