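import Mathlib
import Pool.Agent.Work.MP_25be31_al.Rel

/-!
Convex subgroups, isolators and the descending chain of convex jumps.
-/

set_option linter.unusedSectionVars false

namespace Pool.Agent.Work.MP_25be31_al

universe u

/-- the isolator of a subgroup -/
def isolator {G : Type u} [Group G] (H : Subgroup G) : Subgroup G :=
  sInf {I : Subgroup G | H ≤ I ∧ ∀ (g : G) (n : ℕ), 0 < n → g ^ n ∈ I → g ∈ I}

section

variable {G : Type u} [Group G]

theorem le_isolator (H : Subgroup G) : H ≤ isolator H :=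
  le_sInf fun _ hI => hI.1

theorem isolator_le {H I : Subgroup G} (h : H ≤ I)
    (hI : ∀ (g : G) (n : ℕ), 0 < n → g ^ n ∈ I → g ∈ I) : isolator H ≤ I :=
  sInf_le ⟨h, hI⟩

theorem mem_isolator_of_pow {H : Subgroup G} {g : G} {n : ℕ} (hn : 0 < n)
    (h : g ^ n ∈ isolator H) : g ∈ isolator H := by
  unfold isolator at *
  rw [Subgroup.mem_sInf] at *
  intro I hI
  exact hI.2 g n hn (h I hI)

theorem isolator_mono {H K : Subgroup G} (h : H ≤ K) : isolator H ≤ isolator K :=
  isolator_le (h.trans (le_isolator K)) fun _ _ hn hg => mem_isolator_of_pow hn hg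

end

section

variable {G : Type u} [Group G] [LinearOrder G] [MulLeftMono G] [MulRightMono G]

theorem Cvx.isolated {C : Subgroup G} (hC : Cvx C) {g : G} {n : ℕ} (hn : 0 < n)
    (h : g ^ n ∈ C) : g ∈ C := by
  obtain ⟨m, rfl⟩ := Nat.exists_eq_succ_of_ne_zero hn.ne'
  rcases le_total 1 g with h1 | h1
  · refine hC 1 _ g C.one_mem h h1 ?_
    rw [Nat.succ_eq_add_one, pow_succ]
    exact le_mul_of_one_le_left' (one_le_pow_of_one_le' h1 m)
  · refine hC _ 1 g h C.one_mem ?_ h1
    rw [Nat.succ_eq_add_one, pow_succ]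
    exact mul_le_of_le_one_left' (pow_le_one' h1 m)

theorem Cvx.isolator_le {C H : Subgroup G} (hC : Cvx C) (h : H ≤ C) : isolator H ≤ C :=
  MP_25be31_al.isolator_le h fun _ _ hn hg => hC.isolated hn hg

theorem cvx_bot : Cvx (⊥ : Subgroup G) := by
  intro a b g ha hb hag hgb
  rw [Subgroup.mem_bot] at *
  rw [ha] at hag
  rw [hb] at hgb
  exact le_antisymm hgb hag

theorem cvx_top : Cvx (⊤ : Subgroup G) := fun _ _ _ _ _ _ _ => Subgroup.mem_top _

theorem exists_pos_notMem {E F : Subgroup G} (h : ¬ E ≤ F) : ∃ x ∈ E, x ∉ F ∧ 1 < x := by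
  obtain ⟨x, hx, hxF⟩ := SetLike.not_le_iff_exists.1 h
  rcases lt_trichotomy 1 x with h1 | h1 | h1
  · exact ⟨x, hx, hxF, h1⟩
  · exact absurd (h1 ▸ F.one_mem) hxF
  · refine ⟨x⁻¹, E.inv_mem hx, ?_, one_lt_inv'.mpr h1⟩
    intro hcon
    exact hxF (by simpa using F.inv_mem hcon)

theorem cvx_total {E F : Subgroup G} (hE : Cvx E) (hF : Cvx F) : E ≤ F ∨ F ≤ E := by
  by_contra hcon
  push Not at hcon
  obtain ⟨x, hxE, hxF, hx1⟩ := exists_pos_notMem hcon.1
  obtain ⟨y, hyF, hyE, hy1⟩ := exists_pos_notMem hcon.2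
  rcases le_total x y with h | h
  · exact hxF (hF 1 y x F.one_mem hyF hx1.le h)
  · exact hyE (hE 1 x y E.one_mem hxE hy1.le h)

/-- proper convex subgroups of `C` -/
def PC (C : Subgroup G) : Set (Subgroup G) := {E | Cvx E ∧ E ≤ C ∧ E ≠ C}

theorem bot_mem_PC {C : Subgroup G} (hC : C ≠ ⊥) : (⊥ : Subgroup G) ∈ PC C :=
  ⟨cvx_bot, bot_le, hC.symm⟩

theorem PC_directed (C : Subgroup G) : DirectedOn (· ≤ ·) (PC C) := by
  intro E hE F hF
  rcases cvx_total hE.1 hF.1 with h | h
  · exact ⟨F, hF, h, le_rfl⟩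
  · exact ⟨E, hE, le_rfl, h⟩

theorem mem_sSup_PC {C : Subgroup G} (hC : C ≠ ⊥) {x : G} :
    x ∈ sSup (PC C) ↔ ∃ E ∈ PC C, x ∈ E :=
  Subgroup.mem_sSup_of_directedOn ⟨⊥, bot_mem_PC hC⟩ (PC_directed C)

theorem exists_jump_of_finset {C : Subgroup G} (hcv : Cvx C) (hC : C ≠ ⊥) (S : Finset G)
    (hS : (S : Set G) ⊆ C) (h : ∀ E, Cvx E → E ≤ C → (S : Set G) ⊆ E → E = C) :
    ∃ C', Jump C' C := by
  classical
  refine ⟨sSup (PC C), ?_⟩
  have hle : sSup (PC C) ≤ C := sSup_le fun E hE => hE.2.1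
  have hcvU : Cvx (sSup (PC C)) := by
    intro a b g ha hb hag hgb
    rw [mem_sSup_PC hC] at *
    obtain ⟨E, hE, haE⟩ := ha
    obtain ⟨F, hF, hbF⟩ := hb
    obtain ⟨K, hK, hEK, hFK⟩ := PC_directed C E hE F hF
    exact ⟨K, hK, hK.1 a b g (hEK haE) (hFK hbF) hag hgb⟩
  refine ⟨hcvU, hcv, hle, ?_, fun E h1 h2 h3 => le_sSup ⟨h1, h2, h3⟩⟩
  intro hU
  have key : ∀ T : Finset G, (T : Set G) ⊆ C → ∃ E ∈ PC C, (T : Set G) ⊆ E := by
    intro T
    induction T using Finset.induction_on with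
    | empty => intro _; exact ⟨⊥, bot_mem_PC hC, by simp⟩
    | insert a T _ ih =>
      intro hT
      rw [Finset.coe_insert, Set.insert_subset_iff] at hT
      obtain ⟨E, hE, hTE⟩ := ih hT.2
      have ha : a ∈ sSup (PC C) := by rw [hU]; exact hT.1
      obtain ⟨F, hF, haF⟩ := (mem_sSup_PC hC).1 ha
      obtain ⟨K, hK, hEK, hFK⟩ := PC_directed C E hE F hF
      refine ⟨K, hK, ?_⟩
      rw [Finset.coe_insert, Set.insert_subset_iff]
      exact ⟨hFK haF, hTE.trans hEK⟩
  obtain ⟨E, hE, hSE⟩ := key S hS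
  exact hE.2.2 (h E hE.1 hE.2.1 hSE)

/-- isolators of finitely generated subgroups have a predecessor -/
theorem exists_jump_of_isolator {C H : Subgroup G} (hcv : Cvx C) (hC : C ≠ ⊥) (hH : H.FG)
    (h : C = isolator H) : ∃ C', Jump C' C := by
  obtain ⟨S, hS⟩ := hH
  refine exists_jump_of_finset hcv hC S ?_ ?_
  · have h1 : H ≤ C := by rw [h]; exact le_isolator H
    intro s hs
    apply h1
    rw [← hS]
    exact Subgroup.subset_closure hs
  · intro E hE hEC hSE
    refine le_antisymm hEC ?_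
    rw [h]
    apply hE.isolator_le
    rw [← hS, Subgroup.closure_le]
    exact hSE

theorem exists_jump_of_finite {C : Subgroup G} (hcv : Cvx C) (hC : C ≠ ⊥)
    (hfin : {E : Subgroup G | Cvx E}.Finite) : ∃ C', Jump C' C := by
  have hfin' : (PC C).Finite := hfin.subset fun E hE => hE.1
  obtain ⟨E, hE, hmax⟩ := hfin'.exists_maximal ⟨⊥, bot_mem_PC hC⟩
  refine ⟨E, hE.1, hcv, hE.2.1, hE.2.2, fun F h1 h2 h3 => ?_⟩
  rcases cvx_total h1 hE.1 with h | h
  · exact h
  · exact hmax ⟨h1, h2, h3⟩ h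

theorem Jump.normal {C D : Subgroup G} (J : Jump C D) (hD : D.Normal) : C.Normal := by
  constructor
  intro x hx g
  -- the conjugate subgroup
  set E : Subgroup G := C.map (MulAut.conj g).toMonoidHom with hE
  have hmem : ∀ y, y ∈ E ↔ g⁻¹ * y * g ∈ C := by
    intro y
    rw [hE, Subgroup.mem_map]
    constructor
    · rintro ⟨c, hc, rfl⟩
      have : g⁻¹ * ((MulAut.conj g).toMonoidHom c) * g = c := by
        simp [MulAut.conj_apply, mul_assoc]
      rw [this]; exact hc
    · intro h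
      refine ⟨_, h, ?_⟩
      simp [MulAut.conj_apply, mul_assoc]
  have hmono : ∀ a b : G, a ≤ b → g⁻¹ * a * g ≤ g⁻¹ * b * g := by
    intro a b hab
    exact mul_le_mul_left (mul_le_mul_right hab _) _
  have hcv : Cvx E := by
    intro a b y ha hb hay hyb
    rw [hmem] at *
    exact J.cC _ _ _ ha hb (hmono _ _ hay) (hmono _ _ hyb)
  have hle : E ≤ D := by
    intro y hy
    rw [hmem] at hy
    have := hD.conj_mem _ (J.le hy) g
    have e : g * (g⁻¹ * y * g) * g⁻¹ = y := by group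
    rwa [e] at this
  have hne : E ≠ D := by
    intro h
    apply J.ne
    refine le_antisymm J.le ?_
    intro y hy
    have h1 : g * y * g⁻¹ ∈ E := by rw [h]; exact hD.conj_mem y hy g
    rw [hmem] at h1
    have e : g⁻¹ * (g * y * g⁻¹) * g = y := by group
    rwa [e] at h1
  have h2 := J.max E hcv hle hne
  apply h2
  rw [hmem]
  have e : g⁻¹ * (g * x * g⁻¹) * g = x := by group
  rw [e]
  exact hx

/-- next convex subgroup -/
noncomputable def nxt (C : Subgroup G) : Subgroup G :=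
  open Classical in if h : ∃ C', Jump C' C then Classical.choose h else ⊥

theorem nxt_jump {C : Subgroup G} (h : ∃ C', Jump C' C) : Jump (nxt C) C := by
  unfold nxt
  rw [dif_pos h]
  exact Classical.choose_spec h

theorem nxt_spec (C : Subgroup G) (hn : C.Normal) :
    Cvx (nxt C) ∧ (nxt C).Normal := by
  by_cases h : ∃ C', Jump C' C
  · exact ⟨(nxt_jump h).cC, (nxt_jump h).normal hn⟩
  · have : nxt C = ⊥ := by
      unfold nxt
      rw [dif_neg h]
    rw [this]
    exact ⟨cvx_bot, inferInstance⟩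

theorem exists_chain {r : ℕ} (hr : SpecialRankLE G r)
    (hf : ∀ C : Subgroup G, Cvx C → C.Normal → C ≠ ⊥ → ∃ C', Jump C' C) :
    ∃ (n : ℕ) (D : ℕ → Subgroup G), n ≤ r ^ 3 + 2 * r ∧ JChain n D ∧ D n = ⊥ := by
  classical
  set D : ℕ → Subgroup G := fun k => (nxt)^[k] ⊤ with hD
  have hD0 : D 0 = ⊤ := rfl
  have hDs : ∀ k, D (k + 1) = nxt (D k) := by
    intro k
    simp only [hD, Function.iterate_succ_apply']
  have hcn : ∀ k, Cvx (D k) ∧ (D k).Normal := by
    intro k
    induction k with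
    | zero => rw [hD0]; exact ⟨cvx_top, inferInstance⟩
    | succ k ih => rw [hDs]; exact nxt_spec _ ih.2
  have hj : ∀ n, (∀ i, i < n → D i ≠ ⊥) → JChain n D := by
    intro n hn
    refine ⟨hD0, ?_, fun i _ => (hcn i).2⟩
    intro i hi
    rw [hDs]
    exact nxt_jump (hf _ (hcn i).1 (hcn i).2 (hn i hi))
  have hex : ∃ n, n ≤ r ^ 3 + 2 * r ∧ D n = ⊥ := by
    by_contra hcon
    push Not at hcon
    have h1 := (hj (r ^ 3 + 2 * r + 1) (fun i hi => hcon i (by omega))).le_bound hr
    omega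
  have hex' : ∃ n, D n = ⊥ := by
    obtain ⟨n, _, h⟩ := hex
    exact ⟨n, h⟩
  refine ⟨Nat.find hex', D, ?_, hj _ (fun i hi => Nat.find_min hex' hi), Nat.find_spec hex'⟩
  obtain ⟨n, hn, h⟩ := hex
  exact (Nat.find_min' hex' h).trans hn

theorem JChain.cvx {n : ℕ} {D : ℕ → Subgroup G} (h : JChain n D) {i : ℕ} (hi : i ≤ n) :
    Cvx (D i) := by
  cases i with
  | zero => rw [h.top]; exact cvx_top
  | succ i => exact (h.jump i hi).cC

theorem JChain.all {n : ℕ} {D : ℕ → Subgroup G} (h : JChain n D) (hn : D n = ⊥)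
    {E : Subgroup G} (hE : Cvx E) : ∃ i, i ≤ n ∧ E = D i := by
  classical
  by_contra hcon
  push Not at hcon
  have key : ∀ i, i ≤ n → E ≤ D i := by
    intro i
    induction i with
    | zero => intro _; rw [h.top]; exact le_top
    | succ i ih =>
      intro hi
      exact (h.jump i hi).max E hE (ih (by omega)) (hcon i (by omega))
  have h1 := key n le_rfl
  rw [hn, le_bot_iff] at h1
  exact hcon n le_rfl (by rw [h1, hn])

theorem JChain.derived {n : ℕ} {D : ℕ → Subgroup G} (h : JChain n D) {i : ℕ} (hi : i ≤ n) :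
    derivedSeries G i ≤ D i := by
  induction i with
  | zero => rw [h.top]; exact le_top
  | succ i ih =>
    rw [derivedSeries_succ, Subgroup.commutator_le]
    intro x hx y hy
    have h1 := ih (by omega)
    have := (h.jump i hi).comm (h1 hx) (h1 hy)
    rwa [commutatorElement_def]

theorem JChain.derived_bot {n m : ℕ} {D : ℕ → Subgroup G} (h : JChain n D) (hn : D n = ⊥)
    (hm : n ≤ m) : derivedSeries G m = ⊥ := by
  rw [eq_bot_iff]
  refine (derivedSeries_antitone G hm).trans ((h.derived le_rfl).trans ?_)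
  rw [hn]

theorem JChain.isolator {n r : ℕ} {D : ℕ → Subgroup G} (h : JChain n D) (hn : D n = ⊥)
    (hr : SpecialRankLE G r) {i : ℕ} (hi : i ≤ n) :
    ∃ H : Subgroup G, H.FG ∧ D i = MP_25be31_al.isolator H := by
  classical
  obtain ⟨k, rfl⟩ := Nat.exists_eq_add_of_le hi
  induction k generalizing i with
  | zero =>
    refine ⟨⊥, ⟨∅, by simp⟩, ?_⟩
    rw [add_zero] at hn
    rw [hn]
    exact le_antisymm bot_le (cvx_bot.isolator_le le_rfl)
  | succ k ih =>
    have h' : JChain (i + 1 + k) D := by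
      have : i + 1 + k = i + (k + 1) := by ring
      rw [this]; exact h
    have hn' : D (i + 1 + k) = ⊥ := by
      have : i + 1 + k = i + (k + 1) := by ring
      rw [this]; exact hn
    obtain ⟨H', hH', hD'⟩ := ih h' hn' (by omega)
    have J := h.jump i (by omega)
    obtain ⟨z, hz, hzC, h1⟩ := J.exists_pos
    have hDz := J.le_hull hz hzC h1.le
    have hH : HomOn (D i) (D (i + 1)) ℝ (rho z) :=
      ⟨fun a ha b hb => rho_mul h1 (hDz ha) (hDz hb), fun a ha => J.rho_ker hz hzC h1 ha⟩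
    obtain ⟨T, _, hTD, hT⟩ := hH.exists_finset hr
    refine ⟨H' ⊔ Subgroup.closure (T : Set G), hH'.sup ⟨T, rfl⟩, ?_⟩
    refine le_antisymm ?_ ?_
    · intro x hx
      obtain ⟨m, hm, y, hy, hyx⟩ := hT x hx
      apply mem_isolator_of_pow hm
      have e : x ^ m = y * (y⁻¹ * x ^ m) := by group
      rw [e]
      refine Subgroup.mul_mem _ ?_ ?_
      · exact le_isolator _ (le_sup_right (a := H') hy)
      · rw [hD'] at hyx
        exact isolator_mono le_sup_left hyx
    · apply J.cD.isolator_le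
      refine sup_le ?_ ?_
      · refine le_trans ?_ J.le
        rw [hD']
        exact le_isolator H'
      · rwa [Subgroup.closure_le]

end

end Pool.Agent.Work.MP_25be31_al
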