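import Mathlib
import Pool.Agent.Work.MP_25be31_al.Convex

/-!
Soluble o-groups of finite special rank: cofinal elements; locally soluble o-groups.
-/

set_option linter.unusedSectionVars false

namespace Pool.Agent.Work.MP_25be31_al

universe u v

open scoped commutatorElement

section

variable {G : Type u} [Group G] [LinearOrder G] [MulLeftMono G] [MulRightMono G]

/-- `x` is cofinal in `X` -/
def Cofin (X : Subgroup G) (x : G) : Prop := x ∈ X ∧ 1 ≤ x ∧ X ≤ hull x

theorem hull_mono_of_mem {x y : G} (hx : x ∈ hull y) (h1 : 1 ≤ y) : hull x ≤ hull y :=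
  hull_le (cvx_hull h1) hx

theorem Cvx.of_zpow {C : Subgroup G} (hC : Cvx C) {g : G} {c : ℤ} (hc : c ≠ 0)
    (h : g ^ c ∈ C) : g ∈ C := by
  apply hC.isolated (n := c.natAbs) (Int.natAbs_pos.2 hc)
  rcases Int.natAbs_eq c with h1 | h1
  · rw [← zpow_natCast, ← h1]; exact h
  · rw [← zpow_natCast]
    have h2 : ((c.natAbs : ℕ) : ℤ) = - c := by omega
    rw [h2, zpow_neg]
    exact C.inv_mem h

/-- a long chain of incomparable elements outside a convex subgroup -/
theorem indep_of_chain {X M' : Subgroup G} {V : Type v} [AddCommGroup V] {θ : G → V}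
    (hθ : HomOn X M' V θ) {z : G} (hM' : M' ≤ hull z) (k : ℕ) (y : ℕ → G)
    (hy0 : y 0 = z) (hyX : ∀ i, y i ∈ X) (hy1 : ∀ i, 1 ≤ y i)
    (hyc : ∀ i, y i ∈ hull (y (i + 1))) (hyn : ∀ i, y (i + 1) ∉ hull (y i)) :
    LinearIndependent ℤ (fun i : Fin k => θ (y (i.1 + 1))) := by
  classical
  have hmono : ∀ i j, i ≤ j → y i ∈ hull (y j) := by
    intro i j hij
    induction j, hij using Nat.le_induction with
    | base => exact mem_hull_self (hy1 i)
    | succ j _ ih => exact hull_mono_of_mem (hyc j) (hy1 (j + 1)) ih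
  induction k with
  | zero => exact linearIndependent_empty_type
  | succ k ih =>
    have e : (fun i : Fin (k + 1) => θ (y (i.1 + 1))) =
        (Fin.snoc (fun i : Fin k => θ (y (i.1 + 1))) (θ (y (k + 1))) : Fin (k + 1) → V) := by
      funext i
      refine Fin.lastCases ?_ ?_ i
      · simp
      · intro j
        simp
    rw [Fintype.linearIndependent_iff]
    intro c hc
    rw [Fin.sum_univ_castSucc] at hc
    simp only [Fin.val_castSucc, Fin.val_last] at hc
    have hlast : c (Fin.last k) = 0 := by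
      by_contra h0
      set T : Set G := {g | ∃ i, i < k ∧ g = y (i + 1)} with hT
      have hTX : T ⊆ X := by
        rintro g ⟨i, _, rfl⟩
        exact hyX _
      have hw : c (Fin.last k) • θ (y (k + 1)) ∈ Submodule.span ℤ (θ '' T) := by
        have h2 : c (Fin.last k) • θ (y (k + 1)) =
            - ∑ i : Fin k, c i.castSucc • θ (y (i.1 + 1)) := by
          rw [eq_neg_iff_add_eq_zero, add_comm]
          exact hc
        rw [h2]
        apply Submodule.neg_mem
        apply Submodule.sum_mem
        intro i _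
        apply Submodule.smul_mem
        apply Submodule.subset_span
        exact ⟨y (i.1 + 1), ⟨i.1, i.2, rfl⟩, rfl⟩
      obtain ⟨u, hu, huθ⟩ := hθ.exists_lift T hTX _ hw
      have huX : u ∈ X := by
        have : Subgroup.closure T ≤ X := by rwa [Subgroup.closure_le]
        exact this hu
      have huh : u ∈ hull (y k) := by
        have : Subgroup.closure T ≤ hull (y k) := by
          rw [Subgroup.closure_le]
          rintro g ⟨i, hi, rfl⟩
          exact hmono (i + 1) k (by omega)
        exact this hu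
      have h3 : u⁻¹ * y (k + 1) ^ (c (Fin.last k)) ∈ M' := by
        rw [← hθ.ker _ (X.mul_mem (X.inv_mem huX) (X.zpow_mem (hyX _) _)),
          hθ.add _ (X.inv_mem huX) _ (X.zpow_mem (hyX _) _), hθ.inv huX, hθ.zpow (hyX _), huθ]
        simp
      have h4 : u⁻¹ * y (k + 1) ^ (c (Fin.last k)) ∈ hull (y k) := by
        refine hull_mono_of_mem ?_ (hy1 k) (hM' h3)
        rw [← hy0]
        exact hmono 0 k (Nat.zero_le k)
      have h5 : y (k + 1) ^ (c (Fin.last k)) ∈ hull (y k) := by
        have := (hull (y k)).mul_mem huh h4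
        rwa [mul_inv_cancel_left] at this
      exact hyn k ((cvx_hull (hy1 k)).of_zpow h0 h5)
    rw [hlast, zero_smul, add_zero] at hc
    rw [Fintype.linearIndependent_iff] at ih
    have hall := ih _ hc
    intro i
    refine Fin.lastCases ?_ ?_ i
    · exact hlast
    · exact hall

theorem cofin_step {r : ℕ} (hr : SpecialRankLE G r) {X X' : Subgroup G}
    (hX' : X' ≤ X) (hcomm : ∀ x ∈ X, ∀ y ∈ X, x * y * x⁻¹ * y⁻¹ ∈ X')
    (h : ∃ z, Cofin X' z) : ∃ x, Cofin X x := by
  classical
  obtain ⟨z, hzX', hz1, hz⟩ := h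
  by_contra hcon
  push Not at hcon
  have hzX : z ∈ X := hX' hzX'
  have hstep : ∀ x : {x : G // x ∈ X ∧ 1 ≤ x}, ∃ y : {x : G // x ∈ X ∧ 1 ≤ x},
      x.1 ∈ hull y.1 ∧ y.1 ∉ hull x.1 := by
    rintro ⟨x, hx, hx1⟩
    have h1 : ¬ X ≤ hull x := fun hle => hcon x ⟨hx, hx1, hle⟩
    obtain ⟨y, hyX, hyh, hy1⟩ := exists_pos_notMem h1
    refine ⟨⟨y, hyX, hy1.le⟩, ?_, hyh⟩
    rcases le_total x y with h2 | h2
    · exact cvx_hull hy1.le 1 y x (Subgroup.one_mem _) (mem_hull_self hy1.le) hx1 h2
    · exact absurd (cvx_hull hx1 1 x y (Subgroup.one_mem _) (mem_hull_self hx1) hy1.le h2) hyh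
  choose f hf using hstep
  set y : ℕ → {x : G // x ∈ X ∧ 1 ≤ x} := fun n => f^[n] ⟨z, hzX, hz1⟩ with hy
  have hy0 : y 0 = ⟨z, hzX, hz1⟩ := rfl
  have hys : ∀ n, y (n + 1) = f (y n) := by
    intro n
    simp only [hy, Function.iterate_succ_apply']
  obtain ⟨V, _, θ, hθ⟩ := exists_homOn X (X ⊓ hull z) (by
    intro a ha b hb
    have h1 := hcomm a ha b hb
    exact ⟨hX' h1, hz h1⟩)
  have hli := indep_of_chain hθ (inf_le_right) (r + 1) (fun n => (y n).1)
    (by simp only [hy0]) (fun n => (y n).2.1) (fun n => (y n).2.2)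
    (fun n => by simp only [hys]; exact (hf (y n)).1) (fun n => by simp only [hys]; exact (hf (y n)).2)
  have := hθ.card_le hr (fun i : Fin (r + 1) => (y (i.1 + 1)).1) (fun i => (y _).2.1) hli
  rw [Fintype.card_fin] at this
  omega

theorem cofin_of_solvable {r : ℕ} (hr : SpecialRankLE G r) (n : ℕ) (X : Subgroup G)
    (h : derivedSeries X n = ⊥) : ∃ x, Cofin X x := by
  induction n generalizing X with
  | zero =>
    refine ⟨1, X.one_mem, le_rfl, ?_⟩
    intro x hx
    have h1 : (⟨x, hx⟩ : X) ∈ derivedSeries X 0 := Subgroup.mem_top _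
    rw [h, Subgroup.mem_bot] at h1
    have h2 : x = 1 := congrArg Subtype.val h1
    rw [h2]
    exact Subgroup.one_mem _
  | succ n ih =>
    set Y : Subgroup G := (_root_.commutator X).map X.subtype with hY
    have hYX : Y ≤ X := by
      rintro _ ⟨x, _, rfl⟩
      exact x.2
    have hYn : ∀ k, (derivedSeries Y k).map Y.subtype =
        (derivedSeries X (k + 1)).map X.subtype := by
      intro k
      induction k with
      | zero =>
        rw [derivedSeries_zero, derivedSeries_one, ← MonoidHom.range_eq_map, Subgroup.range_subtype]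
      | succ k ihk =>
        rw [derivedSeries_succ, derivedSeries_succ, Subgroup.map_commutator, Subgroup.map_commutator,
          ihk]
    have h1 : derivedSeries Y n = ⊥ := by
      apply Subgroup.map_injective Y.subtype_injective
      rw [hYn, h, Subgroup.map_bot, Subgroup.map_bot]
    refine cofin_step hr hYX ?_ (ih Y h1)
    intro x hx y hy
    refine ⟨⁅(⟨x, hx⟩ : X), ⟨y, hy⟩⁆, ?_, ?_⟩
    · exact Subgroup.commutator_mem_commutator (Subgroup.mem_top _) (Subgroup.mem_top _)
    · rfl

theorem exists_jump_of_solvable {r : ℕ} (hr : SpecialRankLE G r) (hs : Group.IsSolvable G)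
    {C : Subgroup G} (hcv : Cvx C) (hC : C ≠ ⊥) : ∃ C', Jump C' C := by
  classical
  have hsC : Group.IsSolvable C := inferInstance
  obtain ⟨n, hn⟩ := hsC.solvable
  obtain ⟨x, hxC, hx1, hx⟩ := cofin_of_solvable hr n C hn
  refine exists_jump_of_finset hcv hC {x} ?_ ?_
  · simpa using hxC
  · intro E hE hEC hxE
    refine le_antisymm hEC (hx.trans (hull_le hE ?_))
    simpa using hxE

end

section

variable {G : Type u} [Group G]

/-- elements of the derived series come from finitely generated subgroups -/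
theorem derived_local (n : ℕ) (x : G) (hx : x ∈ derivedSeries G n) :
    ∃ S : Finset G, ∀ K : Subgroup G, (S : Set G) ⊆ K → x ∈ (derivedSeries K n).map K.subtype := by
  classical
  induction n generalizing x with
  | zero =>
    refine ⟨{x}, fun K hK => ?_⟩
    have hxK : x ∈ K := hK (by simp)
    exact ⟨⟨x, hxK⟩, Subgroup.mem_top _, rfl⟩
  | succ n ih =>
    rw [derivedSeries_succ, Subgroup.commutator_def] at hx
    induction hx using Subgroup.closure_induction with
    | mem x hx =>
      obtain ⟨a, ha, b, hb, rfl⟩ := hx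
      obtain ⟨S, hS⟩ := ih a ha
      obtain ⟨T, hT⟩ := ih b hb
      refine ⟨S ∪ T, fun K hK => ?_⟩
      rw [Finset.coe_union, Set.union_subset_iff] at hK
      rw [derivedSeries_succ, Subgroup.map_commutator]
      exact Subgroup.commutator_mem_commutator (hS K hK.1) (hT K hK.2)
    | one => exact ⟨∅, fun K _ => Subgroup.one_mem _⟩
    | mul x y _ _ hx hy =>
      obtain ⟨S, hS⟩ := hx
      obtain ⟨T, hT⟩ := hy
      refine ⟨S ∪ T, fun K hK => ?_⟩
      rw [Finset.coe_union, Set.union_subset_iff] at hK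
      exact Subgroup.mul_mem _ (hS K hK.1) (hT K hK.2)
    | inv x _ hx =>
      obtain ⟨S, hS⟩ := hx
      exact ⟨S, fun K hK => Subgroup.inv_mem _ (hS K hK)⟩

theorem derived_bot_of_local {m : ℕ}
    (h : ∀ K : Subgroup G, K.FG → derivedSeries K m = ⊥) : derivedSeries G m = ⊥ := by
  rw [eq_bot_iff]
  intro x hx
  obtain ⟨S, hS⟩ := derived_local m x hx
  have h1 := hS (Subgroup.closure (S : Set G)) Subgroup.subset_closure
  rw [h _ ⟨S, rfl⟩, Subgroup.map_bot] at h1
  exact h1

end

end Pool.Agent.Work.MP_25be31_al
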