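import Mathlib
import Pool.Agent.Work.MP_25be31_al.Sol

/-!
O-groups of finite special rank all of whose convex subgroups are normal.
-/

set_option linter.unusedSectionVars false

namespace Pool.Agent.Work.MP_25be31_al

universe u v

open scoped commutatorElement

section

variable {G : Type u} [Group G] [LinearOrder G] [MulLeftMono G] [MulRightMono G]

theorem exists_jump_hull {x : G} (hx : 1 < x) : ∃ C, Jump C (hull x) ∧ x ∉ C := by
  have hne : hull x ≠ ⊥ := by
    intro h
    have h1 := mem_hull_self hx.le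
    rw [h, Subgroup.mem_bot] at h1
    exact hx.ne' h1
  obtain ⟨C, hC⟩ := exists_jump_of_finset (cvx_hull hx.le) hne {x}
    (by simpa using mem_hull_self hx.le)
    (fun E hE hEC hxE => le_antisymm hEC (hull_le hE (by simpa using hxE)))
  exact ⟨C, hC, fun hc => hC.ne (le_antisymm hC.le (hull_le hC.cC hc))⟩

/-- if all convex subgroups are normal then commutators centralize all jumps -/
theorem star_of_normal (hn : ∀ C : Subgroup G, Cvx C → C.Normal) {x : G} (hx : 1 < x) {γ : G}
    (hγ : γ ∈ _root_.commutator G) (n : ℤ) : (x * γ * x⁻¹ * γ⁻¹) ^ n < x := by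
  obtain ⟨C, J, hxC⟩ := exists_jump_hull hx
  obtain ⟨ρ, h1, h2, h3⟩ := J.exists_rho (hn C J.cC) (hn _ J.cD)
  have hD := hn _ J.cD
  let N : Subgroup G :=
    { carrier := {g | ∀ y ∈ hull x, ρ (g * y * g⁻¹) = ρ y}
      mul_mem' := by
        intro a b ha hb y hy
        have e : a * b * y * (a * b)⁻¹ = a * (b * y * b⁻¹) * a⁻¹ := by group
        rw [e, ha _ (hD.conj_mem y hy b), hb y hy]
      one_mem' := by intro y _; simp
      inv_mem' := by
        intro a ha y hy
        have h4 := ha _ (hD.conj_mem y hy a⁻¹)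
        have e : a * (a⁻¹ * y * a⁻¹⁻¹) * a⁻¹ = y := by group
        rw [e] at h4
        exact h4.symm }
  have hN : _root_.commutator G ≤ N := by
    rw [commutator_def, Subgroup.commutator_le]
    intro g _ h _ y hy
    obtain ⟨cg, _, Hg⟩ := h3 g
    obtain ⟨ch, _, Hh⟩ := h3 h
    have hz : g⁻¹ * (h⁻¹ * y * h⁻¹⁻¹) * g⁻¹⁻¹ ∈ hull x :=
      hD.conj_mem _ (hD.conj_mem y hy h⁻¹) g⁻¹
    set z := g⁻¹ * (h⁻¹ * y * h⁻¹⁻¹) * g⁻¹⁻¹ with hzd
    have e1 : y = h * (g * z * g⁻¹) * h⁻¹ := by rw [hzd]; group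
    have e2 : ⁅g, h⁆ * y * ⁅g, h⁆⁻¹ = g * (h * z * h⁻¹) * g⁻¹ := by
      rw [hzd, commutatorElement_def]; group
    have e3 : ρ y = ch * (cg * ρ z) := by
      conv_lhs => rw [e1]
      rw [(Hh _ (Hg z hz).1).2, (Hg z hz).2]
    rw [e2, (Hg _ (Hh z hz).1).2, (Hh z hz).2, e3]
    ring
  have hxD : x ∈ hull x := mem_hull_self hx.le
  have hk : x * γ * x⁻¹ * γ⁻¹ ∈ C := by
    have e : x * γ * x⁻¹ * γ⁻¹ = x * (γ * x⁻¹ * γ⁻¹) := by group
    have hc := hD.conj_mem _ ((hull x).inv_mem hxD) γ
    rw [e, ← h2 _ ((hull x).mul_mem hxD hc), h1 _ hxD _ hc, hN hγ _ ((hull x).inv_mem hxD),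
      ← h1 _ hxD _ ((hull x).inv_mem hxD), mul_inv_cancel, h2 _ (Subgroup.one_mem _)]
    exact C.one_mem
  exact J.lt_of_mem hxC hx (C.zpow_mem hk n)

/-- commutators are infinitely smaller -/
def Star (G : Type u) [Group G] [LinearOrder G] : Prop :=
  ∀ x γ : G, 1 < x → ∀ n : ℤ, (x * γ * x⁻¹ * γ⁻¹) ^ n < x

theorem Star.normal (hs : Star G) {C : Subgroup G} (hC : Cvx C) : C.Normal := by
  constructor
  intro c hc γ
  have key : ∀ c ∈ C, 1 < c → γ * c * γ⁻¹ ∈ C := by
    intro c hc h1
    have a1 := hs c γ h1 1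
    have a2 := hs c γ h1 (-1)
    rw [zpow_one] at a1
    rw [zpow_neg_one] at a2
    have hk : c * γ * c⁻¹ * γ⁻¹ ∈ C := by
      refine hC c⁻¹ c _ (C.inv_mem hc) hc ?_ a1.le
      have := inv_anti a2.le
      rwa [inv_inv] at this
    have e : γ * c * γ⁻¹ = (c * γ * c⁻¹ * γ⁻¹)⁻¹ * c := by group
    rw [e]
    exact C.mul_mem (C.inv_mem hk) hc
  rcases lt_trichotomy 1 c with h | h | h
  · exact key c hc h
  · rw [← h]; simp
  · have h1 := key c⁻¹ (C.inv_mem hc) (one_lt_inv'.mpr h)
    have h2 := C.inv_mem h1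
    have e : (γ * c⁻¹ * γ⁻¹)⁻¹ = γ * c * γ⁻¹ := by group
    rwa [e] at h2

theorem Star.comm_mem (hs : Star G) {C' C : Subgroup G} (J : Jump C' C) {c : G} (hc : c ∈ C)
    (γ : G) : c * γ * c⁻¹ * γ⁻¹ ∈ C' := by
  have hn' := hs.normal J.cC
  have hn := hs.normal J.cD
  have key : ∀ c ∈ C, c ∉ C' → 1 < c → c * γ * c⁻¹ * γ⁻¹ ∈ C' := by
    intro c hc hc' h1
    have hkC : c * γ * c⁻¹ * γ⁻¹ ∈ C := by
      have e : c * γ * c⁻¹ * γ⁻¹ = c * (γ * c⁻¹ * γ⁻¹) := by group
      rw [e]
      exact C.mul_mem hc (hn.conj_mem _ (C.inv_mem hc) γ)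
    by_contra hcon
    rcases le_total 1 (c * γ * c⁻¹ * γ⁻¹) with h2 | h2
    · obtain ⟨n, _, h3⟩ := J.le_hull hkC hcon h2 hc
      have := hs c γ h1 (n : ℤ)
      rw [zpow_natCast] at this
      exact absurd h3 (not_le.mpr this)
    · have hcon' : (c * γ * c⁻¹ * γ⁻¹)⁻¹ ∉ C' := by
        intro h
        exact hcon (by simpa only [inv_inv] using C'.inv_mem h)
      obtain ⟨n, _, h3⟩ := J.le_hull (C.inv_mem hkC) hcon' (one_le_inv'.mpr h2) hc
      have := hs c γ h1 (-(n : ℤ))
      rw [zpow_neg, zpow_natCast, ← inv_pow] at this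
      exact absurd h3 (not_le.mpr this)
  by_cases hc' : c ∈ C'
  · have e : c * γ * c⁻¹ * γ⁻¹ = c * (γ * c⁻¹ * γ⁻¹) := by group
    rw [e]
    exact C'.mul_mem hc' (hn'.conj_mem _ (C'.inv_mem hc') γ)
  · rcases lt_trichotomy 1 c with h | h | h
    · exact key c hc hc' h
    · exact absurd (h ▸ C'.one_mem) hc'
    · have h1 : c⁻¹ ∉ C' := fun h => hc' (by simpa using C'.inv_mem h)
      have h2 := key c⁻¹ (C.inv_mem hc) h1 (one_lt_inv'.mpr h)
      have h3 := hn'.conj_mem _ (C'.inv_mem h2) c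
      have e : c * (c⁻¹ * γ * c⁻¹⁻¹ * γ⁻¹)⁻¹ * c⁻¹ = c * γ * c⁻¹ * γ⁻¹ := by group
      rwa [e] at h3

end

section

variable {G : Type u} [Group G]

theorem HomOn.span_of_closure {M M' : Subgroup G} {V : Type v} [AddCommGroup V] {θ : G → V}
    (h : HomOn M M' V θ) (T : Set G) (hT : T ⊆ M) {y : G} (hy : y ∈ Subgroup.closure T) :
    θ y ∈ Submodule.span ℤ (θ '' T) := by
  have hcl : Subgroup.closure T ≤ M := by rwa [Subgroup.closure_le]
  induction hy using Subgroup.closure_induction with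
  | mem x hx => exact Submodule.subset_span ⟨x, hx, rfl⟩
  | one => rw [h.one]; exact Submodule.zero_mem _
  | mul x y hx hy ihx ihy =>
    rw [h.add _ (hcl hx) _ (hcl hy)]
    exact Submodule.add_mem _ ihx ihy
  | inv x hx ihx =>
    rw [h.inv (hcl hx)]
    exact Submodule.neg_mem _ ihx

/-- the group theoretic step: if `C` is the normal closure of a finite set and is centralized
modulo `C'` then `C'` is the normal closure of a finite set -/
theorem normalClosure_step (S : Finset G) (hS : Subgroup.closure (S : Set G) = ⊤)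
    {C C' : Subgroup G} (hn' : C'.Normal) (hle : C' ≤ C)
    (hcomm : ∀ c ∈ C, ∀ γ : G, c * γ * c⁻¹ * γ⁻¹ ∈ C') (F : Finset G)
    (hF : C = Subgroup.normalClosure (F : Set G)) :
    ∃ F' : Finset G, C' = Subgroup.normalClosure (F' : Set G) := by
  classical
  set R : Finset G := (F ×ˢ S).image (fun p => p.1 * p.2 * p.1⁻¹ * p.2⁻¹) with hR
  set L : Subgroup G := Subgroup.normalClosure (R : Set G) with hL
  have hFC : (F : Set G) ⊆ C := by
    rw [hF]; exact Subgroup.subset_normalClosure
  have hRC' : (R : Set G) ⊆ C' := by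
    intro g hg
    rw [Finset.mem_coe, hR, Finset.mem_image] at hg
    obtain ⟨p, hp, rfl⟩ := hg
    rw [Finset.mem_product] at hp
    exact hcomm _ (hFC hp.1) _
  have hLC' : L ≤ C' := Subgroup.normalClosure_le_normal hRC'
  set π := QuotientGroup.mk' L with hπ
  have hker : ∀ a b : G, π a * π b = π b * π a → a * b * a⁻¹ * b⁻¹ ∈ L := by
    intro a b hab
    rw [← QuotientGroup.eq_one_iff]
    change π (a * b * a⁻¹ * b⁻¹) = 1
    rw [map_mul, map_mul, map_mul, map_inv, map_inv, hab]
    group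
  have hFZ : ∀ f ∈ F, π f ∈ Subgroup.center (G ⧸ L) := by
    intro f hf
    have h1 : Subgroup.closure (S : Set G) ≤ (Subgroup.centralizer {π f}).comap π := by
      rw [Subgroup.closure_le]
      intro s hs
      change π s ∈ Subgroup.centralizer {π f}
      rw [Subgroup.mem_centralizer_singleton_iff]
      have h2 : f * s * f⁻¹ * s⁻¹ ∈ L := by
        apply Subgroup.subset_normalClosure
        rw [Finset.mem_coe, hR, Finset.mem_image]
        exact ⟨(f, s), by rw [Finset.mem_product]; exact ⟨hf, hs⟩, rfl⟩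
      have h3 : π (f * s * f⁻¹ * s⁻¹) = 1 := (QuotientGroup.eq_one_iff _).2 h2
      rw [map_mul, map_mul, map_mul, map_inv, map_inv, mul_inv_eq_one, mul_inv_eq_iff_eq_mul] at h3
      first
        | exact h3
        | exact h3.symm
    rw [Subgroup.mem_center_iff]
    intro q
    obtain ⟨g, rfl⟩ := QuotientGroup.mk'_surjective L q
    have h4 : g ∈ (Subgroup.centralizer {π f}).comap π := h1 (by rw [hS]; exact Subgroup.mem_top g)
    change π g ∈ Subgroup.centralizer {π f} at h4
    rw [Subgroup.mem_centralizer_singleton_iff] at h4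
    exact h4
  have hCZ : C ≤ (Subgroup.center (G ⧸ L)).comap π := by
    rw [hF]
    apply Subgroup.normalClosure_le_normal
    intro f hf
    exact hFZ f hf
  have hCL : ∀ a ∈ C, ∀ b : G, a * b * a⁻¹ * b⁻¹ ∈ L := by
    intro a ha b
    apply hker
    have h1 := hCZ ha
    change π a ∈ Subgroup.center (G ⧸ L) at h1
    rw [Subgroup.mem_center_iff] at h1
    exact (h1 (π b)).symm
  have hclF : Subgroup.closure (F : Set G) ≤ C := by rwa [Subgroup.closure_le]
  have hCsup : C ≤ Subgroup.closure (F : Set G) ⊔ L := by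
    have hKC : Subgroup.closure (F : Set G) ⊔ L ≤ C := sup_le hclF (hLC'.trans hle)
    have hKn : (Subgroup.closure (F : Set G) ⊔ L).Normal := by
      constructor
      intro x hx g
      have h1 := hCL x⁻¹ (C.inv_mem (hKC hx)) g
      have e : g * x * g⁻¹ = x * (x⁻¹ * g * x⁻¹⁻¹ * g⁻¹) := by group
      rw [e]
      exact Subgroup.mul_mem _ hx ((le_sup_right : L ≤ _) h1)
    conv_lhs => rw [hF]
    apply Subgroup.normalClosure_le_normal
    intro f hf
    exact (le_sup_left : Subgroup.closure (F : Set G) ≤ _) (Subgroup.subset_closure hf)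
  obtain ⟨V, _, θ, hθ⟩ := exists_homOn C L (fun a ha b _ => hCL a ha b)
  have hθC : ∀ x ∈ C, θ x ∈ Submodule.span ℤ (θ '' (F : Set G)) := by
    intro x hx
    have h1 := hCsup hx
    rw [Subgroup.mem_sup_of_normal_right] at h1
    obtain ⟨y, hy, z, hz, rfl⟩ := h1
    have hzC : z ∈ C := hle (hLC' hz)
    rw [hθ.add _ (hclF hy) _ hzC, (hθ.ker z hzC).2 hz, add_zero]
    exact hθ.span_of_closure _ hFC hy
  have hle2 : Submodule.span ℤ (θ '' (C' : Set G)) ≤ Submodule.span ℤ (θ '' (F : Set G)) := by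
    rw [Submodule.span_le]
    rintro _ ⟨x, hx, rfl⟩
    exact hθC x (hle hx)
  have hFG : (Submodule.span ℤ (θ '' (C' : Set G))).FG := by
    have h1 : (Submodule.span ℤ (θ '' (F : Set G))).FG :=
      Submodule.fg_span ((Finset.finite_toSet F).image θ)
    have h2 : IsNoetherian ℤ (Submodule.span ℤ (θ '' (F : Set G))) :=
      isNoetherian_of_fg_of_noetherian _ h1
    exact Submodule.FG.of_le_of_isNoetherian hle2
  rw [Submodule.fg_span_iff_fg_span_finset_subset] at hFG
  obtain ⟨T₀, hT₀, hT₀'⟩ := hFG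
  rw [Finset.subset_set_image_iff] at hT₀
  obtain ⟨T, hT, rfl⟩ := hT₀
  refine ⟨T ∪ R, le_antisymm ?_ ?_⟩
  · intro x hx
    have h1 : θ x ∈ Submodule.span ℤ (θ '' (T : Set G)) := by
      rw [Finset.coe_image] at hT₀'
      rw [← hT₀']
      exact Submodule.subset_span ⟨x, hx, rfl⟩
    obtain ⟨y, hy, hyx⟩ := hθ.exists_lift (T : Set G) (hT.trans hle) _ h1
    have hyC : y ∈ C := by
      have : Subgroup.closure (T : Set G) ≤ C := by
        rw [Subgroup.closure_le]
        exact hT.trans hle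
      exact this hy
    have h2 : y⁻¹ * x ∈ L := by
      rw [← hθ.ker _ (C.mul_mem (C.inv_mem hyC) (hle hx)),
        hθ.add _ (C.inv_mem hyC) _ (hle hx), hθ.inv hyC, hyx]
      simp
    have e : x = y * (y⁻¹ * x) := by group
    rw [e]
    refine Subgroup.mul_mem _ ?_ ?_
    · have h3 : Subgroup.closure (T : Set G) ≤
          Subgroup.normalClosure ((T ∪ R : Finset G) : Set G) := by
        rw [Subgroup.closure_le]
        intro t ht
        apply Subgroup.subset_normalClosure
        rw [Finset.coe_union]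
        exact Or.inl ht
      exact h3 hy
    · have h3 : L ≤ Subgroup.normalClosure ((T ∪ R : Finset G) : Set G) := by
        apply Subgroup.normalClosure_mono
        rw [Finset.coe_union]
        exact Set.subset_union_right
      exact h3 h2
  · apply Subgroup.normalClosure_le_normal
    rw [Finset.coe_union]
    exact Set.union_subset hT hRC'

end

section

variable {G : Type u} [Group G] [LinearOrder G] [MulLeftMono G] [MulRightMono G]

/-- chains of jumps inside a class of convex normal subgroups -/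
theorem exists_chain_of {r : ℕ} (hr : SpecialRankLE G r) (Q : Subgroup G → Prop) (hQ0 : Q ⊤)
    (hf : ∀ C : Subgroup G, Cvx C → C.Normal → Q C → C ≠ ⊥ → ∃ C', Jump C' C)
    (hQ : ∀ C C' : Subgroup G, Cvx C → C.Normal → Q C → Jump C' C → Q C') :
    ∃ (n : ℕ) (D : ℕ → Subgroup G), n ≤ r ^ 3 + 2 * r ∧ JChain n D ∧ D n = ⊥ := by
  classical
  set D : ℕ → Subgroup G := fun k => (nxt)^[k] ⊤ with hD
  have hD0 : D 0 = ⊤ := rfl
  have hDs : ∀ k, D (k + 1) = nxt (D k) := by
    intro k
    simp only [hD, Function.iterate_succ_apply']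
  have hcn : ∀ k, Cvx (D k) ∧ (D k).Normal := by
    intro k
    induction k with
    | zero => rw [hD0]; exact ⟨cvx_top, inferInstance⟩
    | succ k ih => rw [hDs]; exact nxt_spec _ ih.2
  have hQn : ∀ n, (∀ i, i < n → D i ≠ ⊥) → ∀ k, k ≤ n → Q (D k) := by
    intro n hn k
    induction k with
    | zero => intro _; rw [hD0]; exact hQ0
    | succ k ih =>
      intro hk
      have h1 := ih (by omega)
      rw [hDs]
      exact hQ _ _ (hcn k).1 (hcn k).2 h1
        (nxt_jump (hf _ (hcn k).1 (hcn k).2 h1 (hn k (by omega))))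
  have hj : ∀ n, (∀ i, i < n → D i ≠ ⊥) → JChain n D := by
    intro n hn
    refine ⟨hD0, ?_, fun i _ => (hcn i).2⟩
    intro i hi
    rw [hDs]
    exact nxt_jump (hf _ (hcn i).1 (hcn i).2 (hQn n hn i hi.le) (hn i hi))
  have hex : ∃ n, n ≤ r ^ 3 + 2 * r ∧ D n = ⊥ := by
    by_contra hcon
    push Not at hcon
    have h1 := (hj (r ^ 3 + 2 * r + 1) (fun i hi => hcon i (by omega))).le_bound hr
    omega
  have hex' : ∃ n, D n = ⊥ := by
    obtain ⟨n, _, h⟩ := hex
    exact ⟨n, h⟩
  refine ⟨Nat.find hex', D, ?_, hj _ (fun i hi => Nat.find_min hex' hi), Nat.find_spec hex'⟩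
  obtain ⟨n, hn, h⟩ := hex
  exact (Nat.find_min' hex' h).trans hn

/-- finitely generated groups in which commutators are infinitely smaller -/
theorem Star.derived {r : ℕ} (hs : Star G) (hr : SpecialRankLE G r) (S : Finset G)
    (hS : Subgroup.closure (S : Set G) = ⊤) : derivedSeries G (r ^ 3 + 2 * r) = ⊥ := by
  classical
  obtain ⟨n, D, hn, hD, hDn⟩ := exists_chain_of hr
    (fun C => ∃ F : Finset G, C = Subgroup.normalClosure (F : Set G))
    ⟨S, by
      rw [eq_comm, eq_top_iff, ← hS]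
      exact Subgroup.closure_le_normalClosure⟩
    (by
      rintro C hC _ ⟨F, hF⟩ hne
      refine exists_jump_of_finset hC hne F ?_ ?_
      · rw [hF]; exact Subgroup.subset_normalClosure
      · intro E hE hEC hFE
        refine le_antisymm hEC ?_
        rw [hF]
        have := hs.normal hE
        exact Subgroup.normalClosure_le_normal hFE)
    (by
      rintro C C' _ _ ⟨F, hF⟩ J
      exact normalClosure_step S hS (hs.normal J.cC) J.le (fun c hc γ => hs.comm_mem J hc γ) F hF)
  exact hD.derived_bot hDn hn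

end

/-- the order induced on a subgroup is invariant -/
theorem sub_left {G : Type u} [Group G] [LinearOrder G] [MulLeftMono G] (K : Subgroup G) :
    MulLeftMono K :=
  ⟨fun a _ _ h => mul_le_mul_right (α := G) h a⟩

theorem sub_right {G : Type u} [Group G] [LinearOrder G] [MulRightMono G] (K : Subgroup G) :
    MulRightMono K :=
  ⟨fun a _ _ h => mul_le_mul_left (α := G) h a⟩

theorem derivedSeries_succ_map (G : Type u) [Group G] (k : ℕ) :
    derivedSeries G (k + 1) =
      (derivedSeries (_root_.commutator G) k).map (_root_.commutator G).subtype := by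
  induction k with
  | zero =>
    rw [derivedSeries_zero, derivedSeries_one, ← MonoidHom.range_eq_map, Subgroup.range_subtype]
  | succ k ihk =>
    rw [derivedSeries_succ G (k + 1), ihk, ← Subgroup.map_commutator, ← derivedSeries_succ]

section

variable {G : Type u} [Group G] [LinearOrder G] [MulLeftMono G] [MulRightMono G]

/-- if all convex subgroups are normal, the group is soluble -/
theorem solvable_of_normal {r : ℕ} (hr : SpecialRankLE G r)
    (hn : ∀ C : Subgroup G, Cvx C → C.Normal) : Group.IsSolvable G := by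
  refine ⟨⟨r ^ 3 + 2 * r + 1, ?_⟩⟩
  rw [derivedSeries_succ_map]
  have h1 : derivedSeries (_root_.commutator G) (r ^ 3 + 2 * r) = ⊥ := by
    apply derived_bot_of_local
    intro K hK
    have i1 : MulLeftMono (_root_.commutator G) := sub_left _
    have i2 : MulRightMono (_root_.commutator G) := sub_right _
    have i3 : MulLeftMono K := sub_left _
    have i4 : MulRightMono K := sub_right _
    obtain ⟨S, hS⟩ := (Group.fg_iff_subgroup_fg K).2 hK
    refine Star.derived ?_ ((hr.sub _).sub K) S hS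
    intro x γ hx n
    have hx' : (1 : G) < ((x : _root_.commutator G) : G) := hx
    exact star_of_normal hn hx' (γ : _root_.commutator G).2 n
  rw [h1, Subgroup.map_bot]

/-- every proper convex subgroup has a successor -/
def HasSucc (G : Type u) [Group G] [LinearOrder G] : Prop :=
  ∀ C : Subgroup G, Cvx C → C ≠ ⊤ →
    ∃ C' : Subgroup G, Cvx C' ∧ C < C' ∧ ∀ E : Subgroup G, Cvx E → C < E → C' ≤ E

theorem HasSucc.least (h : HasSucc G) (P : Set (Subgroup G)) (hP : ∀ C ∈ P, Cvx C)
    (hne : P.Nonempty) : ∃ C ∈ P, ∀ E ∈ P, C ≤ E := by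
  have hcv : Cvx (sInf P) := by
    intro a b g ha hb hag hgb
    rw [Subgroup.mem_sInf] at *
    intro C hC
    exact hP C hC a b g (ha C hC) (hb C hC) hag hgb
  by_cases hI : sInf P ∈ P
  · exact ⟨sInf P, hI, fun E hE => sInf_le hE⟩
  · have htop : sInf P ≠ ⊤ := by
      intro ht
      obtain ⟨C, hC⟩ := hne
      have h1 : (⊤ : Subgroup G) ≤ C := by rw [← ht]; exact sInf_le hC
      have h2 : C = ⊤ := top_le_iff.1 h1
      apply hI
      rw [ht, ← h2]
      exact hC
    obtain ⟨C', _, hlt, hmin⟩ := h _ hcv htop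
    have h3 : C' ≤ sInf P := by
      apply le_sInf
      intro E hE
      apply hmin E (hP E hE)
      refine lt_of_le_of_ne (sInf_le hE) ?_
      intro he
      exact hI (by rw [he]; exact hE)
    exact absurd (lt_of_lt_of_le hlt h3) (lt_irrefl _)

theorem cvx_conj {C : Subgroup G} (hC : Cvx C) (g : G) :
    Cvx (C.map (MulAut.conj g).toMonoidHom) := by
  have hmem : ∀ y, y ∈ C.map (MulAut.conj g).toMonoidHom ↔ g⁻¹ * y * g ∈ C := by
    intro y
    rw [Subgroup.mem_map]
    constructor
    · rintro ⟨c, hc, rfl⟩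
      have : g⁻¹ * ((MulAut.conj g).toMonoidHom c) * g = c := by
        simp [MulAut.conj_apply, mul_assoc]
      rw [this]; exact hc
    · intro h
      refine ⟨_, h, ?_⟩
      simp [MulAut.conj_apply, mul_assoc]
  intro a b y ha hb hay hyb
  rw [hmem] at *
  exact hC _ _ _ ha hb (mul_le_mul_left (mul_le_mul_right hay _) _)
    (mul_le_mul_left (mul_le_mul_right hyb _) _)

theorem HasSucc.normal (h : HasSucc G) {C : Subgroup G} (hC : Cvx C) : C.Normal := by
  have key : ∀ C : Subgroup G, Cvx C → ∀ g : G,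
      ¬ C.map (MulAut.conj g).toMonoidHom < C := by
    by_contra hcon
    push Not at hcon
    obtain ⟨C₀, hC₀, g₀, hg₀⟩ := hcon
    obtain ⟨C, ⟨hC, g, hg⟩, hmin⟩ := h.least
      {C | Cvx C ∧ ∃ g : G, C.map (MulAut.conj g).toMonoidHom < C} (fun C hC => hC.1)
      ⟨C₀, hC₀, g₀, hg₀⟩
    have h1 : C ≤ C.map (MulAut.conj g).toMonoidHom := by
      apply hmin
      refine ⟨cvx_conj hC g, g, ?_⟩
      exact (Subgroup.map_lt_map_iff_of_injective (MulAut.conj g).injective).2 hg
    exact absurd (lt_of_le_of_lt h1 hg) (lt_irrefl _)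
  constructor
  intro c hc g
  have h1 : C ≤ C.map (MulAut.conj g⁻¹).toMonoidHom := by
    rcases cvx_total hC (cvx_conj hC g⁻¹) with h2 | h2
    · exact h2
    · by_contra hcon
      exact key C hC g⁻¹ (lt_of_le_of_ne h2 (fun he => hcon he.ge))
  obtain ⟨d, hd, hdc⟩ := h1 hc
  have e : g * c * g⁻¹ = d := by
    rw [← hdc]
    simp [mul_assoc]
  rw [e]
  exact hd

end

end Pool.Agent.Work.MP_25be31_al
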