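import Mathlib
import Pool.Agent.Work.MP_25be31_al.Norm

/-!
The equivalences for one o-group of finite special rank, and for the class of all of them.
-/

set_option linter.unusedSectionVars false

namespace Pool.Agent.Work.MP_25be31_al

universe u

section

variable {G : Type u} [Group G] [LinearOrder G] [MulLeftMono G] [MulRightMono G]

theorem JChain.finite {n : ℕ} {D : ℕ → Subgroup G} (h : JChain n D) (hn : D n = ⊥) :
    {E : Subgroup G | Cvx E}.Finite ∧ {E : Subgroup G | Cvx E}.ncard ≤ n + 1 := by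
  classical
  have hsub : {E : Subgroup G | Cvx E} ⊆ (((Finset.range (n + 1)).image D : Finset _) :
      Set (Subgroup G)) := by
    intro E hE
    obtain ⟨i, hi, rfl⟩ := h.all hn hE
    rw [Finset.mem_coe, Finset.mem_image]
    exact ⟨i, Finset.mem_range.2 (by omega), rfl⟩
  refine ⟨(Finset.finite_toSet _).subset hsub, ?_⟩
  refine (Set.ncard_le_ncard hsub (Finset.finite_toSet _)).trans ?_
  rw [Set.ncard_coe_finset]
  refine Finset.card_image_le.trans ?_
  rw [Finset.card_range]

theorem exists_succ_of_finite (hfin : {E : Subgroup G | Cvx E}.Finite) : HasSucc G := by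
  intro C hC hne
  have h1 : {E : Subgroup G | Cvx E ∧ C < E}.Finite := hfin.subset fun E hE => hE.1
  obtain ⟨E, hE, hmin⟩ := h1.exists_minimal ⟨⊤, cvx_top, lt_top_iff_ne_top.2 hne⟩
  refine ⟨E, hE.1, hE.2, fun F hF hCF => ?_⟩
  rcases cvx_total hE.1 hF with h | h
  · exact h
  · exact hmin ⟨hF, hCF⟩ h

/-- the equivalences for one ordered group of finite special rank -/
theorem tfae_one {r : ℕ} (hr : SpecialRankLE G r) :
    List.TFAE [
      ∀ C : Subgroup G, Cvx C → ∃ H : Subgroup G, H.FG ∧ C = isolator H,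
      ∀ C : Subgroup G, Cvx C → C.Normal → ∃ H : Subgroup G, H.FG ∧ C = isolator H,
      Group.IsSolvable G,
      ∀ K : Subgroup G, K.FG → Group.IsSolvable K,
      derivedSeries G (r ^ 3 + 2 * r) = ⊥,
      {C : Subgroup G | Cvx C}.Finite,
      {C : Subgroup G | Cvx C}.Finite ∧ {C : Subgroup G | Cvx C}.ncard ≤ r ^ 3 + 2 * r + 1,
      ∀ C : Subgroup G, Cvx C → C.Normal,
      ∀ C : Subgroup G, Cvx C → C ≠ ⊥ → ∃ C' : Subgroup G, Cvx C' ∧ C' < C ∧
        ∀ E : Subgroup G, Cvx E → E < C → E ≤ C',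
      ∀ C : Subgroup G, Cvx C → C ≠ ⊤ → ∃ C' : Subgroup G, Cvx C' ∧ C < C' ∧
        ∀ E : Subgroup G, Cvx E → C < E → C' ≤ E] := by
  have hchain : (∀ C : Subgroup G, Cvx C → C.Normal → C ≠ ⊥ → ∃ C', Jump C' C) →
      (∀ C : Subgroup G, Cvx C → ∃ H : Subgroup G, H.FG ∧ C = isolator H) ∧
      derivedSeries G (r ^ 3 + 2 * r) = ⊥ ∧
      ({C : Subgroup G | Cvx C}.Finite ∧
        {C : Subgroup G | Cvx C}.ncard ≤ r ^ 3 + 2 * r + 1) ∧
      (∀ C : Subgroup G, Cvx C → C.Normal) := by
    intro hf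
    obtain ⟨n, D, hn, hD, hDn⟩ := exists_chain hr hf
    refine ⟨?_, hD.derived_bot hDn hn, ⟨(hD.finite hDn).1, (hD.finite hDn).2.trans (by omega)⟩, ?_⟩
    · intro C hC
      obtain ⟨i, hi, rfl⟩ := hD.all hDn hC
      exact hD.isolator hDn hr hi
    · intro C hC
      obtain ⟨i, hi, rfl⟩ := hD.all hDn hC
      exact hD.normal i hi
  tfae_have 1 → 2 := fun h C hC _ => h C hC
  tfae_have 2 → 5 := by
    intro h
    refine (hchain fun C hC hn hne => ?_).2.1
    obtain ⟨H, hH, hCH⟩ := h C hC hn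
    exact exists_jump_of_isolator hC hne hH hCH
  tfae_have 5 → 3 := fun h => ⟨⟨_, h⟩⟩
  tfae_have 3 → 1 := by
    intro h
    exact (hchain fun C hC _ hne => exists_jump_of_solvable hr h hC hne).1
  tfae_have 3 → 7 := by
    intro h
    exact (hchain fun C hC _ hne => exists_jump_of_solvable hr h hC hne).2.2.1
  tfae_have 7 → 6 := fun h => h.1
  tfae_have 6 → 8 := by
    intro h
    exact (hchain fun C hC _ hne => exists_jump_of_finite hC hne h).2.2.2
  tfae_have 8 → 3 := solvable_of_normal hr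
  tfae_have 3 → 4 := fun h K _ => inferInstance
  tfae_have 4 → 5 := by
    intro h
    apply derived_bot_of_local
    intro K hK
    have i3 : MulLeftMono K := sub_left _
    have i4 : MulRightMono K := sub_right _
    have hs := h K hK
    have hrK := hr.sub K
    obtain ⟨n, D, hn, hD, hDn⟩ := exists_chain hrK
      (fun C hC _ hne => exists_jump_of_solvable hrK hs hC hne)
    exact hD.derived_bot hDn hn
  tfae_have 6 → 9 := by
    intro h C hC hne
    obtain ⟨C', J⟩ := exists_jump_of_finite hC hne h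
    exact ⟨C', J.cC, lt_of_le_of_ne J.le J.ne, fun E hE hlt => J.max E hE hlt.le hlt.ne⟩
  tfae_have 9 → 5 := by
    intro h
    refine (hchain fun C hC _ hne => ?_).2.1
    obtain ⟨C', h1, h2, h3⟩ := h C hC hne
    exact ⟨C', h1, hC, h2.le, h2.ne, fun E hE hle hE' => h3 E hE (lt_of_le_of_ne hle hE')⟩
  tfae_have 6 → 10 := fun h => exists_succ_of_finite h
  tfae_have 10 → 8 := fun h C hC => HasSucc.normal h hC
  tfae_finish

end

/-- question Q1 of the problem -/
def Q1 : Prop :=
  ∀ (G : Type u) [Group G] [LinearOrder G] [MulLeftMono G] [MulRightMono G] (r : ℕ),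
    SpecialRankLE G r → ∀ C : Subgroup G, Cvx C → ∃ H : Subgroup G, H.FG ∧ C = isolator H

/-- the equivalences for the class of all ordered groups of finite special rank -/
theorem tfae_all :
    List.TFAE [
      Q1.{u},
      ∀ (G : Type u) [Group G] [LinearOrder G] [MulLeftMono G] [MulRightMono G] (r : ℕ),
        SpecialRankLE G r → ∃ H : Subgroup G, H.FG ∧ isolator H = ⊤,
      ∀ (G : Type u) [Group G] [LinearOrder G] [MulLeftMono G] [MulRightMono G] (r : ℕ),
        SpecialRankLE G r → Nontrivial G → ∃ C : Subgroup G, Cvx C ∧ C ≠ ⊤ ∧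
          ∀ E : Subgroup G, Cvx E → E ≠ ⊤ → E ≤ C,
      ∀ (G : Type u) [Group G] [LinearOrder G] [MulLeftMono G] [MulRightMono G] (r : ℕ),
        SpecialRankLE G r → Group.IsSolvable G,
      ∀ (G : Type u) [Group G] [LinearOrder G] [MulLeftMono G] [MulRightMono G] (r : ℕ),
        Group.FG G → SpecialRankLE G r → Group.IsSolvable G] := by
  tfae_have 1 → 2 := by
    intro h G _ _ _ _ r hr
    obtain ⟨H, hH, hH'⟩ := h G r hr ⊤ cvx_top
    exact ⟨H, hH, hH'.symm⟩
  tfae_have 2 → 3 := by
    intro h G _ _ _ _ r hr hnt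
    obtain ⟨H, hH, hH'⟩ := h G r hr
    have hne : (⊤ : Subgroup G) ≠ ⊥ := by
      intro he
      obtain ⟨x, hx⟩ := exists_ne (1 : G)
      have h1 : x ∈ (⊤ : Subgroup G) := Subgroup.mem_top x
      rw [he, Subgroup.mem_bot] at h1
      exact hx h1
    obtain ⟨C, J⟩ := exists_jump_of_isolator cvx_top hne hH hH'.symm
    exact ⟨C, J.cC, J.ne, fun E hE hEt => J.max E hE le_top hEt⟩
  tfae_have 3 → 1 := by
    intro h G _ _ _ _ r hr
    apply ((tfae_one hr).out 0 8).2
    intro C hC hne
    have i3 : MulLeftMono C := sub_left _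
    have i4 : MulRightMono C := sub_right _
    have hnt : Nontrivial C := (Subgroup.nontrivial_iff_ne_bot C).2 hne
    obtain ⟨E, hE, hEt, hmax⟩ := h C r (hr.sub C) hnt
    refine ⟨E.map C.subtype, ?_, ?_, ?_⟩
    · rintro _ _ g ⟨a, ha, rfl⟩ ⟨b, hb, rfl⟩ hag hgb
      have hg : g ∈ C := hC _ _ g a.2 b.2 hag hgb
      exact ⟨⟨g, hg⟩, hE a b ⟨g, hg⟩ ha hb hag hgb, rfl⟩
    · refine lt_of_le_of_ne ?_ ?_
      · rintro _ ⟨a, _, rfl⟩
        exact a.2
      · intro he
        apply hEt
        rw [eq_top_iff]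
        rintro ⟨c, hc⟩ _
        rw [← he] at hc
        obtain ⟨a, ha, hac⟩ := hc
        have e : a = ⟨c, by rw [← hac]; exact a.2⟩ := Subtype.ext hac
        rw [← e]
        exact ha
    · intro F hF hlt
      have h1 : F.comap C.subtype ≤ E := by
        apply hmax
        · intro a b g ha hb hag hgb
          exact hF a b g ha hb hag hgb
        · intro he
          apply hlt.not_ge
          intro c hc
          have h2 : (⟨c, hc⟩ : C) ∈ F.comap C.subtype := by rw [he]; exact Subgroup.mem_top _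
          exact h2
      intro x hx
      have hxC : x ∈ C := hlt.le hx
      exact ⟨⟨x, hxC⟩, h1 hx, rfl⟩
  tfae_have 1 → 4 := by
    intro h G _ _ _ _ r hr
    exact ((tfae_one hr).out 0 2).1 (h G r hr)
  tfae_have 4 → 5 := fun h G _ _ _ _ r _ hr => h G r hr
  tfae_have 5 → 1 := by
    intro h G _ _ _ _ r hr
    apply ((tfae_one hr).out 0 3).2
    intro K hK
    have i3 : MulLeftMono K := sub_left _
    have i4 : MulRightMono K := sub_right _
    exact h K r ((Group.fg_iff_subgroup_fg K).2 hK) (hr.sub K)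
  tfae_finish

end Pool.Agent.Work.MP_25be31_al
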