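import Mathlib

/-!
Bounding the length of a chain of normal subgroups with real valued factors in a group of
finite special rank.
-/

namespace Pool.Agent.Work.MP_25be31_al

universe u v

/-- every finitely generated subgroup of `G` can be generated by at most `r` elements -/
def SpecialRankLE (G : Type u) [Group G] (r : ℕ) : Prop :=
  ∀ H : Subgroup G, H.FG → ∃ S : Finset G, S.card ≤ r ∧ Subgroup.closure (S : Set G) = H

/-- a finite chain of normal subgroups whose factors embed in the reals, with conjugation acting by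
positive scalars -/
structure PosChain (G : Type u) [Group G] (n : ℕ) where
  D : ℕ → Subgroup G
  rho : ℕ → G → ℝ
  D0 : D 0 = ⊤
  Dn : D n = ⊥
  anti : ∀ i, i < n → D (i + 1) ≤ D i
  strict : ∀ i, i < n → ∃ x ∈ D i, x ∉ D (i + 1)
  add : ∀ i, i < n → ∀ x ∈ D i, ∀ y ∈ D i, rho i (x * y) = rho i x + rho i y
  ker : ∀ i, i < n → ∀ x ∈ D i, (rho i x = 0 ↔ x ∈ D (i + 1))
  conj : ∀ i, i < n → ∀ g : G, ∃ c : ℝ, 0 < c ∧
    ∀ x ∈ D i, g * x * g⁻¹ ∈ D i ∧ rho i (g * x * g⁻¹) = c * rho i x

section torsionfree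

variable {G : Type u} [Group G]

/-- additive function on a subgroup, with given kernel -/
structure HomOn (M M' : Subgroup G) (V : Type v) [AddCommGroup V] (θ : G → V) : Prop where
  add : ∀ x ∈ M, ∀ y ∈ M, θ (x * y) = θ x + θ y
  ker : ∀ x ∈ M, (θ x = 0 ↔ x ∈ M')

theorem exists_homOn (M M' : Subgroup G)
    (hcomm : ∀ x ∈ M, ∀ y ∈ M, x * y * x⁻¹ * y⁻¹ ∈ M') :
    ∃ (V : Type u) (_ : AddCommGroup V) (θ : G → V), HomOn M M' V θ := by
  classical
  set N : Subgroup M := M'.subgroupOf M with hN
  have hnormal : N.Normal := by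
    constructor
    intro a ha g
    rw [hN, Subgroup.mem_subgroupOf] at ha ⊢
    have h1 := hcomm (g : G) g.2 (a : G) a.2
    have h2 := M'.mul_mem h1 ha
    simpa [mul_assoc] using h2
  have hcomm' : ∀ a b : M ⧸ N, a * b = b * a := by
    intro a b
    induction a using QuotientGroup.induction_on with
    | H a =>
      induction b using QuotientGroup.induction_on with
      | H b =>
        rw [← QuotientGroup.mk_mul, ← QuotientGroup.mk_mul, QuotientGroup.eq]
        rw [hN, Subgroup.mem_subgroupOf]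
        have := hcomm (b : G)⁻¹ (M.inv_mem b.2) (a : G)⁻¹ (M.inv_mem a.2)
        simpa [mul_assoc] using this
  let _ : CommGroup (M ⧸ N) := { (inferInstance : Group (M ⧸ N)) with mul_comm := hcomm' }
  refine ⟨Additive (M ⧸ N), inferInstance,
    fun x => if h : x ∈ M then Additive.ofMul (QuotientGroup.mk' N ⟨x, h⟩) else 0, ?_, ?_⟩
  · intro x hx y hy
    rw [dif_pos hx, dif_pos hy, dif_pos (M.mul_mem hx hy)]
    have : (⟨x * y, M.mul_mem hx hy⟩ : M) = ⟨x, hx⟩ * ⟨y, hy⟩ := rfl
    rw [this, map_mul]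
    rfl
  · intro x hx
    rw [dif_pos hx]
    rw [ofMul_eq_zero]
    change ((⟨x, hx⟩ : M) : M ⧸ N) = 1 ↔ _
    rw [QuotientGroup.eq_one_iff, hN, Subgroup.mem_subgroupOf]

variable {M M' : Subgroup G} {V : Type v} [AddCommGroup V] {θ : G → V}

theorem HomOn.one (h : HomOn M M' V θ) : θ 1 = 0 := by
  have := h.add 1 M.one_mem 1 M.one_mem
  simpa using this

theorem HomOn.inv (h : HomOn M M' V θ) {x : G} (hx : x ∈ M) : θ x⁻¹ = - θ x := by
  have := h.add x hx x⁻¹ (M.inv_mem hx)
  rw [mul_inv_cancel, h.one] at this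
  exact (neg_eq_of_add_eq_zero_right this.symm).symm

theorem HomOn.pow (h : HomOn M M' V θ) {x : G} (hx : x ∈ M) (n : ℕ) : θ (x ^ n) = n • θ x := by
  induction n with
  | zero => simp [h.one]
  | succ n ih => rw [pow_succ, h.add _ (M.pow_mem hx n) _ hx, ih, succ_nsmul]

theorem HomOn.zpow (h : HomOn M M' V θ) {x : G} (hx : x ∈ M) (n : ℤ) : θ (x ^ n) = n • θ x := by
  cases n with
  | ofNat n => simpa using h.pow hx n
  | negSucc n =>
    rw [zpow_negSucc, h.inv (M.pow_mem hx _), h.pow hx, negSucc_zsmul]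

/-- rank bound in an abelian section without torsion -/
theorem HomOn.card_le {r : ℕ} (hr : SpecialRankLE G r) (h : HomOn M M' V θ)
    {ι : Type} [Fintype ι] (x : ι → G) (hx : ∀ i, x i ∈ M)
    (hv : LinearIndependent ℤ (fun i => θ (x i))) : Fintype.card ι ≤ r := by
  classical
  have hfg : (Subgroup.closure (Set.range x)).FG :=
    ⟨Finset.univ.image x, by simp⟩
  obtain ⟨S, hS, hcl⟩ := hr _ hfg
  have hle' : Subgroup.closure (S : Set G) ≤ M := by
    rw [hcl, Subgroup.closure_le]
    rintro _ ⟨i, rfl⟩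
    exact hx i
  let w : Finset V := S.image θ
  have hw : w.card ≤ r := Finset.card_image_le.trans hS
  have hspan : Set.range (fun i => θ (x i)) ⊆ (Submodule.span ℤ (w : Set V) : Set _) := by
    rintro _ ⟨i, rfl⟩
    have h1 : x i ∈ Subgroup.closure (S : Set G) := by
      rw [hcl]
      exact Subgroup.subset_closure ⟨i, rfl⟩
    have key : ∀ y : G, y ∈ Subgroup.closure (S : Set G) →
        θ y ∈ Submodule.span ℤ (w : Set V) := by
      intro y hy
      induction hy using Subgroup.closure_induction with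
      | mem y hyS =>
        apply Submodule.subset_span
        rw [Finset.mem_coe, Finset.mem_image]
        exact ⟨y, hyS, rfl⟩
      | one => rw [h.one]; exact Submodule.zero_mem _
      | mul a b ha hb iha ihb =>
        rw [h.add a (hle' ha) b (hle' hb)]
        exact Submodule.add_mem _ iha ihb
      | inv a ha iha =>
        rw [h.inv (hle' ha)]
        exact Submodule.neg_mem _ iha
    exact key _ h1
  have := linearIndependent_le_span' _ hv (w : Set V) hspan
  simp only [Cardinal.mk_fintype, Finset.coe_sort_coe, Fintype.card_coe] at this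
  have h2 : Fintype.card ι ≤ w.card := by exact_mod_cast this
  exact h2.trans hw

theorem HomOn.exists_lift (h : HomOn M M' V θ) (T : Set G) (hT : T ⊆ M) (w : V)
    (hw : w ∈ Submodule.span ℤ (θ '' T)) : ∃ y ∈ Subgroup.closure T, θ y = w := by
  have hcl : Subgroup.closure T ≤ M := by rwa [Subgroup.closure_le]
  induction hw using Submodule.span_induction with
  | mem w hw =>
    obtain ⟨y, hy, rfl⟩ := hw
    exact ⟨y, Subgroup.subset_closure hy, rfl⟩
  | zero => exact ⟨1, Subgroup.one_mem _, h.one⟩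
  | add a b _ _ iha ihb =>
    obtain ⟨y, hy, rfl⟩ := iha
    obtain ⟨z, hz, rfl⟩ := ihb
    exact ⟨y * z, Subgroup.mul_mem _ hy hz, h.add _ (hcl hy) _ (hcl hz)⟩
  | smul c a _ iha =>
    obtain ⟨y, hy, rfl⟩ := iha
    exact ⟨y ^ c, Subgroup.zpow_mem _ hy c, h.zpow (hcl hy) c⟩

/-- a finite subset of size at most `r` generating the section up to torsion -/
theorem HomOn.exists_finset {r : ℕ} (hr : SpecialRankLE G r) (h : HomOn M M' V θ) :
    ∃ T : Finset G, T.card ≤ r ∧ (T : Set G) ⊆ M ∧
      ∀ x ∈ M, ∃ m : ℕ, 0 < m ∧ ∃ y ∈ Subgroup.closure (T : Set G), y⁻¹ * x ^ m ∈ M' := by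
  classical
  let P : ℕ → Prop := fun k => ∃ x : Fin k → G, (∀ i, x i ∈ M) ∧
    LinearIndependent ℤ (fun i => θ (x i))
  have hP0 : P 0 := ⟨Fin.elim0, fun i => i.elim0, linearIndependent_empty_type⟩
  have hPr : ∀ k, P k → k ≤ r := by
    rintro k ⟨x, hx, hv⟩
    simpa using h.card_le hr x hx hv
  have hmax : ∃ k, P k ∧ ¬ P (k + 1) := by
    by_contra hcon
    push Not at hcon
    have hall : ∀ k, P k := by
      intro k
      induction k with
      | zero => exact hP0
      | succ k ih => exact hcon k ih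
    have := hPr _ (hall (r + 1))
    omega
  obtain ⟨k, ⟨x, hx, hv⟩, hk⟩ := hmax
  have hkr : k ≤ r := hPr k ⟨x, hx, hv⟩
  refine ⟨Finset.univ.image x, ?_, ?_, ?_⟩
  · exact (Finset.card_image_le.trans (by simp)).trans hkr
  · intro y hy
    simp only [Finset.coe_image, Finset.coe_univ, Set.image_univ, Set.mem_range] at hy
    obtain ⟨i, rfl⟩ := hy
    exact hx i
  · intro y hy
    have hnot : ¬ LinearIndependent ℤ (fun i : Fin (k + 1) =>
        θ ((Fin.snoc x y : Fin (k + 1) → G) i)) := by
      intro hli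
      apply hk
      refine ⟨Fin.snoc x y, ?_, hli⟩
      intro i
      refine Fin.lastCases ?_ ?_ i
      · simpa using hy
      · intro j
        simpa using hx j
    rw [Fintype.linearIndependent_iff] at hnot
    push Not at hnot
    obtain ⟨c, hc, i0, hi0⟩ := hnot
    rw [Fin.sum_univ_castSucc] at hc
    simp only [Fin.snoc_castSucc, Fin.snoc_last] at hc
    have hlast : c (Fin.last k) ≠ 0 := by
      intro h0
      rw [h0, zero_smul, add_zero] at hc
      rw [Fintype.linearIndependent_iff] at hv
      have hall := hv _ hc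
      apply hi0
      refine Fin.lastCases ?_ ?_ i0
      · exact h0
      · exact hall
    set m : ℤ := c (Fin.last k) with hm
    have hmem : (m.natAbs : ℤ) • θ y ∈ Submodule.span ℤ (θ '' ((Finset.univ.image x : Finset G) : Set G)) := by
      have h1 : m • θ y ∈ Submodule.span ℤ (θ '' ((Finset.univ.image x : Finset G) : Set G)) := by
        have h2 : m • θ y = - ∑ i, c i.castSucc • θ (x i) := by
          rw [eq_neg_iff_add_eq_zero, add_comm]
          exact hc
        rw [h2]
        apply Submodule.neg_mem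
        apply Submodule.sum_mem
        intro i _
        apply Submodule.smul_mem
        apply Submodule.subset_span
        exact ⟨x i, by simp, rfl⟩
      rcases Int.natAbs_eq m with h3 | h3
      · rw [← h3]; exact h1
      · have h4 : (m.natAbs : ℤ) = - m := by omega
        rw [h4, neg_smul]
        exact Submodule.neg_mem _ h1
    have hTM : ((Finset.univ.image x : Finset G) : Set G) ⊆ M := by
      intro z hz
      simp only [Finset.coe_image, Finset.coe_univ, Set.image_univ, Set.mem_range] at hz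
      obtain ⟨i, rfl⟩ := hz
      exact hx i
    obtain ⟨z, hz, hzθ⟩ := h.exists_lift _ hTM _ hmem
    have hzM : z ∈ M := by
      have : Subgroup.closure ((Finset.univ.image x : Finset G) : Set G) ≤ M := by
        rwa [Subgroup.closure_le]
      exact this hz
    refine ⟨m.natAbs, Int.natAbs_pos.mpr hlast, z, hz, ?_⟩
    rw [← h.ker _ (M.mul_mem (M.inv_mem hzM) (M.pow_mem hy _)),
      h.add _ (M.inv_mem hzM) _ (M.pow_mem hy _), h.inv hzM, h.pow hy, hzθ]
    rw [natCast_zsmul]
    simp

theorem HomOn.list (h : HomOn M M' V θ) (l : List G) (hl : ∀ x ∈ l, x ∈ M) :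
    l.prod ∈ M ∧ θ l.prod = (l.map θ).sum := by
  induction l with
  | nil => exact ⟨M.one_mem, by simpa using h.one⟩
  | cons a l ih =>
    have ha : a ∈ M := hl a (by simp)
    have hl' : ∀ x ∈ l, x ∈ M := fun x hx => hl x (by simp [hx])
    obtain ⟨h1, h2⟩ := ih hl'
    refine ⟨?_, ?_⟩
    · rw [List.prod_cons]; exact M.mul_mem ha h1
    · rw [List.prod_cons, List.map_cons, List.sum_cons, h.add a ha _ h1, h2]

theorem HomOn.commutator (h : HomOn M M' V θ) {x y : G} (hx : x ∈ M) (hy : y ∈ M) :
    x * y * x⁻¹ * y⁻¹ ∈ M' := by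
  have hxy := M.mul_mem hx hy
  have hxyx := M.mul_mem hxy (M.inv_mem hx)
  rw [← h.ker _ (M.mul_mem hxyx (M.inv_mem hy)), h.add _ hxyx _ (M.inv_mem hy),
    h.add _ hxy _ (M.inv_mem hx), h.add _ hx _ hy, h.inv hx, h.inv hy]
  abel

end torsionfree

section jumps

variable {G : Type u} [Group G] {n : ℕ}

theorem PosChain.mono (P : PosChain G n) {i j : ℕ} (hij : i ≤ j) (hj : j ≤ n) :
    P.D j ≤ P.D i := by
  induction j, hij using Nat.le_induction with
  | base => exact le_rfl
  | succ j hij ih => exact (P.anti j (by omega)).trans (ih (by omega))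

theorem PosChain.homOn (P : PosChain G n) {i : ℕ} (hi : i < n) :
    HomOn (P.D i) (P.D (i + 1)) ℝ (P.rho i) :=
  ⟨P.add i hi, P.ker i hi⟩

/-- the set of jumps met by `M` -/
noncomputable def PosChain.J (P : PosChain G n) (M : Subgroup G) : Finset ℕ :=
  @Finset.filter _ (fun i => ∃ x ∈ M, x ∈ P.D i ∧ x ∉ P.D (i + 1)) (Classical.decPred _)
    (Finset.range n)

theorem PosChain.mem_J (P : PosChain G n) (M : Subgroup G) (i : ℕ) :
    i ∈ P.J M ↔ i < n ∧ ∃ x ∈ M, x ∈ P.D i ∧ x ∉ P.D (i + 1) := by
  unfold PosChain.J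
  rw [@Finset.mem_filter, Finset.mem_range]

theorem PosChain.J_mono (P : PosChain G n) {M M' : Subgroup G} (h : M' ≤ M) :
    P.J M' ⊆ P.J M := by
  intro i hi
  rw [P.mem_J] at hi ⊢
  obtain ⟨h1, x, hx, h2⟩ := hi
  exact ⟨h1, x, h hx, h2⟩

theorem PosChain.J_top (P : PosChain G n) : P.J ⊤ = Finset.range n := by
  ext i
  rw [P.mem_J, Finset.mem_range]
  constructor
  · exact fun h => h.1
  · intro h
    obtain ⟨x, hx, hx'⟩ := P.strict i h
    exact ⟨h, x, Subgroup.mem_top _, hx, hx'⟩

theorem PosChain.J_bot (P : PosChain G n) : P.J ⊥ = ∅ := by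
  ext i
  rw [P.mem_J]
  constructor
  · rintro ⟨_, x, hx, _, hx'⟩
    rw [Subgroup.mem_bot] at hx
    exact absurd (hx ▸ Subgroup.one_mem _) hx'
  · intro h
    exact absurd h (Finset.notMem_empty i)

theorem PosChain.J_card_le {V : Type v} [AddCommGroup V] {θ : G → V} (P : PosChain G n) {r : ℕ}
    (hr : SpecialRankLE G r) {M M' : Subgroup G} (h : HomOn M M' V θ) :
    (P.J M).card ≤ (P.J M').card + r := by
  classical
  have key : (P.J M \ P.J M').card ≤ r := by
    have hch : ∀ i : {i // i ∈ P.J M \ P.J M'}, ∃ x ∈ M, x ∈ P.D i.1 ∧ x ∉ P.D (i.1 + 1) := by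
      intro i
      have := (Finset.mem_sdiff.mp i.2).1
      rw [P.mem_J] at this
      exact this.2
    choose x hxM hxD hxD' using hch
    have hlt : ∀ i : {i // i ∈ P.J M \ P.J M'}, i.1 < n := by
      intro i
      have := (Finset.mem_sdiff.mp i.2).1
      rw [P.mem_J] at this
      exact this.1
    have := h.card_le hr x hxM (by
      rw [Fintype.linearIndependent_iff]
      intro c hc
      by_contra hcon
      push Not at hcon
      obtain ⟨i1, hi1⟩ := hcon
      obtain ⟨i0, hi0, hmin⟩ := Finset.exists_min_image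
        (Finset.univ.filter (fun i : {i // i ∈ P.J M \ P.J M'} => c i ≠ 0)) (fun i => i.1)
        ⟨i1, by simp [hi1]⟩
      rw [Finset.mem_filter] at hi0
      have hc0 := hi0.2
      set l : List G := (Finset.univ : Finset {i // i ∈ P.J M \ P.J M'}).toList.map
        (fun i => x i ^ c i) with hl
      have hlM : ∀ y ∈ l, y ∈ M := by
        intro y hy
        rw [hl, List.mem_map] at hy
        obtain ⟨i, _, rfl⟩ := hy
        exact M.zpow_mem (hxM i) _
      have hlD : ∀ y ∈ l, y ∈ P.D i0.1 := by
        intro y hy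
        rw [hl, List.mem_map] at hy
        obtain ⟨i, _, rfl⟩ := hy
        by_cases hci : c i = 0
        · rw [hci, zpow_zero]; exact Subgroup.one_mem _
        · apply Subgroup.zpow_mem
          have h1 : i0.1 ≤ i.1 := hmin i (by simp [hci])
          exact P.mono h1 (hlt i).le (hxD i)
      obtain ⟨hm1, hm2⟩ := h.list l hlM
      obtain ⟨hd1, hd2⟩ := (P.homOn (hlt i0)).list l hlD
      have hθ : θ l.prod = 0 := by
        rw [hm2, hl, List.map_map, Finset.sum_map_toList, ← hc]
        apply Finset.sum_congr rfl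
        intro i _
        exact h.zpow (hxM i) (c i)
      have hlM' : l.prod ∈ M' := (h.ker _ hm1).1 hθ
      have hrho : P.rho i0.1 l.prod = c i0 • P.rho i0.1 (x i0) := by
        rw [hd2, hl, List.map_map, Finset.sum_map_toList]
        rw [Finset.sum_eq_single i0]
        · exact (P.homOn (hlt i0)).zpow (hxD i0) (c i0)
        · intro i _ hne
          by_cases hci : c i = 0
          · simp only [Function.comp, hci, zpow_zero]
            exact (P.homOn (hlt i0)).one
          · have h1 : i0.1 ≤ i.1 := hmin i (by simp [hci])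
            have h2 : i0.1 ≠ i.1 := fun h => hne (Subtype.ext h.symm)
            have h3 : i0.1 + 1 ≤ i.1 := by omega
            have h4 : x i ^ c i ∈ P.D (i0.1 + 1) :=
              Subgroup.zpow_mem _ (P.mono h3 (hlt i).le (hxD i)) _
            exact (P.ker i0.1 (hlt i0) _ (P.anti _ (hlt i0) h4)).2 h4
        · intro h; exact absurd (Finset.mem_univ _) h
      have hne : P.rho i0.1 l.prod ≠ 0 := by
        rw [hrho]
        have h1 : P.rho i0.1 (x i0) ≠ 0 := by
          intro h0
          exact hxD' i0 ((P.ker i0.1 (hlt i0) _ (hxD i0)).1 h0)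
        simp only [ne_eq, zsmul_eq_mul, mul_eq_zero, Int.cast_eq_zero]
        tauto
      apply (Finset.mem_sdiff.mp i0.2).2
      rw [P.mem_J]
      refine ⟨hlt i0, l.prod, hlM', hd1, ?_⟩
      intro h0
      exact hne ((P.ker i0.1 (hlt i0) _ hd1).2 h0))
    simpa using this
  have h2 : (P.J M).card ≤ (P.J M').card + (P.J M \ P.J M').card := by
    have h3 : P.J M ⊆ P.J M' ∪ (P.J M \ P.J M') := by
      intro i hi
      by_cases h4 : i ∈ P.J M'
      · exact Finset.mem_union_left _ h4
      · exact Finset.mem_union_right _ (Finset.mem_sdiff.mpr ⟨hi, h4⟩)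
    exact (Finset.card_le_card h3).trans (Finset.card_union_le _ _)
  omega

end jumps

end Pool.Agent.Work.MP_25be31_al
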